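import Pool.Agent.H52.T3.Rk
import Pool.Agent.H52.FR.Dlk

/-!
# [H52 T3 GDP] descending links of the points

Let `R = rk2 ..`, `G = DG X R p`. Vertices: chambers `g` with `2 dp g p ≤ m p` (`gp_iff`), hyperedges `e` with `2 dp e p + 1 < m p` or (`2 dp e p + 1 = m p` and (`KE e p → dst e < dst p`)) (`ep_iff`); in both cases `2 dp e p + 1 ≤ m p`. Adjacent vertices are a chamber `g` and a hyperedge `e` with `T3 g e p` (`hX.kd_ne`).
`acy`: `acyclic_of_height'` with `h g = 2 dp g p`, `h e = 2 dp e p + 1` (`dp_ds`, `dp_asc`: `dp g p = dp e p + 1` or `dp g p = dp e p`). `h1`: parity. `h2`: hyperedges `y`, `z` below a chamber `g`: descending at `g` (otherwise `h g < h y`), so equal: by `Lv2.near` `dp g p = m p`, but `2 dp g p ≤ m p`, `m p ≥ 2`.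
Chambers `y`, `z` below a hyperedge `e`: the gate (`gate_u`).
`reach_gate`: every vertex `y` of the descending link is connected in `G` to the gate `v`: strong induction on the height. A chamber `g`, `dp g p = 0`: the gate is `g` (C-gate: `cg_u`; H-gate: contradiction to `cg_hg`). `dp g p > 0`: `one_ds` (`dp g p < m p`): `e` with `dp e p + 1 = dp g p`, `2 dp e p + 1 < 2 dp g p ≤ m p`:
`e` is in the link and adjacent. A hyperedge `e`: not folded: the gate chamber `g` (`gate_of`) with `dp g p = dp e p`, `2 dp g p < m p`. Folded: `dp e p = 0` (`fd_tie`), so (H-gate) `e = v` by `hg_u`, (C-gate) contradiction to `cg_hg`. `con`: from `reach_gate` and `gate_ex`.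
`uni`: `y`, `z` hyperedges of the link, `FX y`, `FX z`; if `y ≠ z` then `FixP2.far` and `Lv2.ff`: `Cg p` and both are ties: `KE y p`, `KE z p`, so `dst y < dst p`, `dst z < dst p`: `Dst.pt`: `y = z`.
`down_pt`: the gate: a chamber with `dp = 0 `, or a hyperedge with `dp = 0`, `1 < m p`.
-/

set_option autoImplicit false

namespace Pool.Agent.H52.T3

open Pool.Agent.H54.CX Pool.Agent.H98.FJ Pool.Agent.H59.DE
open Pool.Agent.H52.T2 (HGr T3 LX Lv2 Fd Cg acyclic_of_height' bottom_uniq exists_dst)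
open Pool.Agent.H52.FR (DV DG Crit Good)

variable {W : Type} {X : Cpx W} {kd : W → ℕ} {m : W → ℕ} {o : W} {lv : W → ℕ} {dp : W → W → ℕ}
  {ds : W → W → Prop} {an : W → W → ℝ} {FX : W → Prop} {dst : W → ℕ}

/-- the gate of the point `p` -/
def IsGate (X : Cpx W) (kd : W → ℕ) (dp : W → W → ℕ) (ds : W → W → Prop) (p v : W) : Prop :=
  X.Edge v p ∧ dp v p = 0 ∧ (kd v = 0 ∨ Fd X kd ds v)

theorem dv_cases (hX : LX X kd m) (hL : Lv2 X kd m lv dp ds an o) (hF : FixP3 X kd m dp FX)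
    (hD : Dst X kd m dp FX dst) {p y : W} (hp : kd p = 2) (h : DV X (rk2 X kd m lv dp FX dst) p y) :
    (kd y = 0 ∧ X.Edge y p ∧ 2 * dp y p ≤ m p) ∨
      (kd y = 1 ∧ X.Edge y p ∧ 2 * dp y p + 1 ≤ m p ∧ (KE X kd m dp FX y p → dst y < dst p)) := by
  have h1 := hX.kd_ne _ _ h.1
  have h2 := hX.kd_le y
  have hyp : X.Edge y p := X.symm _ _ h.1
  rw [hp] at h1
  have h3 : kd y = 0 ∨ kd y = 1 := by omega
  rcases h3 with h3 | h3
  · exact Or.inl ⟨h3, hyp, (gp_iff hL h3 hp hyp).2.1 h.2⟩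
  · refine Or.inr ⟨h3, hyp, ?_⟩
    rcases (ep_iff hL hF hD h3 hp hyp).1.1 h.2 with h4 | ⟨h4, h5⟩
    · refine ⟨h4.le, fun h6 => ?_⟩
      have h7 := h6.tie
      omega
    · exact ⟨h4.le, h5⟩

theorem adj_cases (hX : LX X kd m) {p y z : W} (hp : kd p = 2)
    (h : (DG X (rk2 X kd m lv dp FX dst) p).Adj y z) : T3 X kd y z p ∨ T3 X kd z y p := by
  have h0 := h.1
  have e1 := hX.kd_ne _ _ (X.edge _ _ _ h0)
  have e2 := hX.kd_ne _ _ (X.edge _ _ _ (X.rot _ _ _ h0))
  have e3 := hX.kd_ne _ _ (X.edge _ _ _ (X.rot _ _ _ (X.rot _ _ _ h0)))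
  have l1 := hX.kd_le y
  have l2 := hX.kd_le z
  rw [hp] at e1 e3
  have h1 : (kd y = 0 ∧ kd z = 1) ∨ (kd z = 0 ∧ kd y = 1) := by omega
  rcases h1 with ⟨h1, h2⟩ | ⟨h1, h2⟩
  · exact Or.inl ⟨h1, h2, hp, X.rot _ _ _ h0⟩
  · exact Or.inr ⟨h1, h2, hp, X.swap _ _ _ (X.rot _ _ _ h0)⟩

theorem dv_adj {p y z : W} (h : (DG X (rk2 X kd m lv dp FX dst) p).Adj y z) :
    DV X (rk2 X kd m lv dp FX dst) p y := ⟨X.edge _ _ _ h.1, h.2.1⟩

theorem dv_ch (hL : Lv2 X kd m lv dp ds an o) {p g : W} (hp : kd p = 2) (hg : kd g = 0)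
    (h : X.Edge g p) (hl : 2 * dp g p ≤ m p) : DV X (rk2 X kd m lv dp FX dst) p g :=
  ⟨X.symm _ _ h, (gp_iff hL hg hp h).2.2 hl⟩

theorem dv_hy (hL : Lv2 X kd m lv dp ds an o) (hF : FixP3 X kd m dp FX)
    (hD : Dst X kd m dp FX dst) {p e : W} (hp : kd p = 2) (he : kd e = 1)
    (h : X.Edge e p) (hl : 2 * dp e p + 1 < m p) : DV X (rk2 X kd m lv dp FX dst) p e :=
  ⟨X.symm _ _ h, (ep_iff hL hF hD he hp h).1.2 (Or.inl hl)⟩

theorem mk_adj {p g e : W} (h : T3 X kd g e p) (h1 : DV X (rk2 X kd m lv dp FX dst) p g)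
    (h2 : DV X (rk2 X kd m lv dp FX dst) p e) : (DG X (rk2 X kd m lv dp FX dst) p).Adj g e :=
  ⟨X.rot _ _ _ (X.rot _ _ _ h.2.2.2), h1.2, h2.2⟩

theorem acy (hX : LX X kd m) (hL : Lv2 X kd m lv dp ds an o) {p : W} (hp : kd p = 2) :
    (DG X (rk2 X kd m lv dp FX dst) p).IsAcyclic := by
  obtain ⟨ht, hht⟩ : ∃ ht : W → ℕ, ht = fun x => if kd x = 0 then 2 * dp x p else 2 * dp x p + 1 := ⟨_, rfl⟩
  have hc : ∀ {x : W}, kd x = 0 → ht x = 2 * dp x p := by
    intro x hx
    rw [hht]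
    exact if_pos hx
  have hh : ∀ {x : W}, kd x = 1 → ht x = 2 * dp x p + 1 := by
    intro x hx
    rw [hht]
    exact if_neg (by omega)
  refine acyclic_of_height' _ ht ?_ ?_
  · intro x y hxy
    rcases adj_cases hX hp hxy with h | h
    · rw [hc h.1, hh h.2.1]
      omega
    · rw [hh h.2.1, hc h.1]
      omega
  · intro x y z hxy hxz hy hz
    have hmu := hX.mu p hp
    rcases adj_cases hX hp hxy with h | h
    · rcases adj_cases hX hp hxz with h' | h'
      swap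
      · have := h'.2.1
        have := h.1
        omega
      rw [hh h.2.1, hc h.1] at hy
      rw [hh h'.2.1, hc h.1] at hz
      by_contra hyz
      have d1 : ds x y := by
        by_contra hd
        have := Lv2.dp_asc hL h hd
        omega
      have d2 : ds x z := by
        by_contra hd
        have := Lv2.dp_asc hL h' hd
        omega
      have h3 := Lv2.near hX hL h h' d1 d2 hyz
      have h4 := (gp_iff (FX := FX) (dst := dst) hL h.1 hp h.gp).2.1 hxy.2.1
      omega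
    · rcases adj_cases hX hp hxz with h' | h'
      · have := h'.1
        have := h.2.1
        omega
      rw [hc h.1, hh h.2.1] at hy
      rw [hc h'.1, hh h.2.1] at hz
      have d1 : ¬ ds y x := by
        intro hd
        have := Lv2.dp_ds hL h hd
        omega
      have d2 : ¬ ds z x := by
        intro hd
        have := Lv2.dp_ds hL h' hd
        omega
      exact hL.gate_u y z x h.1 h'.1 h.2.1 h.ge h'.ge d1 d2

theorem reach_aux (hX : LX X kd m) (hL : Lv2 X kd m lv dp ds an o) (hF : FixP3 X kd m dp FX)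
    (hD : Dst X kd m dp FX dst) {p v : W} (hp : kd p = 2) (hv : IsGate X kd dp ds p v) :
    ∀ (k : ℕ) (y : W), (kd y = 0 → 2 * dp y p ≤ k) → (kd y = 1 → 2 * dp y p + 1 ≤ k) →
      DV X (rk2 X kd m lv dp FX dst) p y → (DG X (rk2 X kd m lv dp FX dst) p).Reachable y v := by
  have hmu := hX.mu p hp
  intro k
  induction k with
  | zero =>
    intro y h0 h1 hy
    rcases dv_cases hX hL hF hD hp hy with ⟨a1, a2, a3⟩ | ⟨a1, a2, a3, a4⟩
    · have h2 := h0 a1
      have h3 : dp y p = 0 := by omega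
      rcases hv.2.2 with h4 | h4
      · rw [hL.cg_u y v p a1 h4 hp a2 hv.1 h3 hv.2.1]
      · exact (hL.cg_hg y v p a1 hp a2 h3 h4 hv.1 hv.2.1).elim
    · have h2 := h1 a1
      omega
  | succ k ih =>
    intro y h0 h1 hy
    rcases dv_cases hX hL hF hD hp hy with ⟨a1, a2, a3⟩ | ⟨a1, a2, a3, a4⟩
    · have h2 := h0 a1
      by_cases h3 : dp y p = 0
      · rcases hv.2.2 with h4 | h4
        · rw [hL.cg_u y v p a1 h4 hp a2 hv.1 h3 hv.2.1]
        · exact (hL.cg_hg y v p a1 hp a2 h3 h4 hv.1 hv.2.1).elim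
      · obtain ⟨e, he, hds, -⟩ := Lv2.one_ds hX hL a1 hp a2 (by omega) (by omega)
        have h4 := Lv2.dp_ds hL he hds
        have h5 : DV X (rk2 X kd m lv dp FX dst) p e := dv_hy hL hF hD hp he.2.1 he.ep (by omega)
        exact (mk_adj he hy h5).reachable.trans (ih e (fun h => by
          have := he.2.1
          omega) (fun _ => by omega) h5)
    · have h2 := h1 a1
      by_cases hf : Fd X kd ds y
      · have h3 := Lv2.fd_tie hX hL hf hp a2 a3
        rcases hv.2.2 with h4 | h4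
        · exact (hL.cg_hg v y p h4 hp hv.1 hv.2.1 hf a2 h3).elim
        · rw [hL.hg_u y v p hp hf h4 a2 hv.1 h3 hv.2.1]
      · obtain ⟨g, hg, hge, hds⟩ := Lv2.gate_of a1 hf
        have ht := hX.t3 hg a1 hp hge a2
        have h4 := Lv2.dp_asc hL ht hds
        have h5 : DV X (rk2 X kd m lv dp FX dst) p g := dv_ch hL hp hg ht.gp (by omega)
        exact (mk_adj ht h5 hy).symm.reachable.trans (ih g (fun _ => by omega) (fun h => by omega) h5)

theorem reach_gate (hX : LX X kd m) (hL : Lv2 X kd m lv dp ds an o) (hF : FixP3 X kd m dp FX)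
    (hD : Dst X kd m dp FX dst) {p v y : W} (hp : kd p = 2) (hv : IsGate X kd dp ds p v)
    (hy : DV X (rk2 X kd m lv dp FX dst) p y) : (DG X (rk2 X kd m lv dp FX dst) p).Reachable y v :=
  reach_aux hX hL hF hD hp hv (2 * dp y p + 1) y (fun _ => by omega) (fun _ => le_rfl) hy

theorem ex_gate (hL : Lv2 X kd m lv dp ds an o) {p : W} (hp : kd p = 2) :
    ∃ v, IsGate X kd dp ds p v := by
  rcases hL.gate_ex p hp with ⟨g, h1, h2, h3⟩ | ⟨e, h1, h2, h3⟩
  · exact ⟨g, h2, h3, Or.inl h1⟩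
  · exact ⟨e, h2, h3, Or.inr h1⟩

theorem good_pt (hX : LX X kd m) (hL : Lv2 X kd m lv dp ds an o) (hF : FixP3 X kd m dp FX)
    (hD : Dst X kd m dp FX dst) {p : W} (hp : kd p = 2) : Good X kd (rk2 X kd m lv dp FX dst) FX p := by
  obtain ⟨v, hv⟩ := ex_gate hL hp
  refine ⟨acy hX hL hp, fun y z hy hz =>
    (reach_gate hX hL hF hD hp hv hy).trans (reach_gate hX hL hF hD hp hv hz).symm, ?_⟩
  intro y z hy hz cy cz
  by_contra hyz
  have fy : kd y = 1 ∧ FX y := by
    rcases cy with h | h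
    · exact h.2
    · have := h.1
      omega
  have fz : kd z = 1 ∧ FX z := by
    rcases cz with h | h
    · exact h.2
    · have := h.1
      omega
  rcases dv_cases hX hL hF hD hp hy with ⟨a1, _, _⟩ | ⟨a1, a2, a3, a4⟩
  · omega
  rcases dv_cases hX hL hF hD hp hz with ⟨b1, _, _⟩ | ⟨b1, b2, b3, b4⟩
  · omega
  obtain ⟨c1, c2, c3, -⟩ := Lv2.ff hX hL a1 b1 hp a2 b2
    (hF.far y z p a1 b1 hp a2 b2 fy.2 fz.2 hyz a3 b3) a3 b3
  have k1 : KE X kd m dp FX y p := ⟨a1, hp, a2, fy.2, c1, c2⟩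
  have k2 : KE X kd m dp FX z p := ⟨b1, hp, b2, fz.2, c1, c3⟩
  exact hyz (hD.pt y z p k1 k2 (a4 k1) (b4 k2))

theorem down_pt (hX : LX X kd m) (hL : Lv2 X kd m lv dp ds an o) (hF : FixP3 X kd m dp FX)
    (hD : Dst X kd m dp FX dst) {p : W} (hp : kd p = 2) : ∃ y, DV X (rk2 X kd m lv dp FX dst) p y := by
  obtain ⟨v, hv, h0, h1⟩ := ex_gate hL hp
  have hmu := hX.mu p hp
  refine ⟨v, ?_⟩
  rcases h1 with h1 | h1
  · exact dv_ch hL hp h1 hv (by omega)
  · exact dv_hy hL hF hD hp h1.1 hv (by omega)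

end Pool.Agent.H52.T3
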