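import Pool.Agent.H52.T3.Gdc
import Pool.Agent.H52.T3.Gdp

/-!
# The fixed part of the descending links is connected
-/

set_option autoImplicit false

namespace Pool.Agent.H52.T3

open Pool.Agent.H54.CX Pool.Agent.H98.FJ Pool.Agent.H59.DE
open Pool.Agent.H52.T2 (HGr T3 LX Lv2 Fd Cg)
open Pool.Agent.H52.FR (DV DG Crit Good)

variable {W : Type} {X : Cpx W} {kd : W → ℕ} {m : W → ℕ} {o : W} {lv : W → ℕ} {dp : W → W → ℕ}
  {ds : W → W → Prop} {an : W → W → ℝ} {FX : W → Prop} {dst : W → ℕ}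

/-- the fixed part of the descending link -/
def DF {α : Type} [LinearOrder α] (X : Cpx W) (R : W → α) (FX : W → Prop) (x : W) : SimpleGraph W where
  Adj y z := (DG X R x).Adj y z ∧ FX y ∧ FX z
  symm := ⟨fun _ _ h => ⟨h.1.symm, h.2.2, h.2.1⟩⟩
  loopless := ⟨fun _ h => h.1.ne rfl⟩

/-- the gallery from a hyperedge to the gate of the point -/
theorem exists_desc (hX : LX X kd m) (hL : Lv2 X kd m lv dp ds an o) {v p : W} (hv : kd v = 0)
    (hp : kd p = 2) (hvp : X.Edge v p) (h0 : dp v p = 0) : ∀ (k : ℕ) (a : W), dp a p = k → kd a = 1 →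
    X.Edge a p → 2 * dp a p + 1 ≤ m p → ∃ e g : ℕ → W, Nb X kd p k e g ∧ e 0 = a ∧
      T3 X kd v (e k) p ∧ ∀ i, i < k → ¬ ds (g i) (e i) := by
  intro k
  induction k with
  | zero =>
    intro a hk ha h1 h2
    have hnf : ¬ Fd X kd ds a := fun hf => hL.cg_hg v a p hv hp hvp h0 hf h1 hk
    obtain ⟨g, hg', h3, h4⟩ := Lv2.gate_of ha hnf
    have t : T3 X kd g a p := hX.t3 hg' ha hp h3 h1
    have h5 := hL.dp_asc t h4
    have h6 : g = v := hL.cg_u g v p hg' hv hp t.gp hvp (by omega) h0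
    subst h6
    exact ⟨fun _ => a, fun _ => g, fun i hi => absurd hi (by omega), rfl, t,
      fun i hi => absurd hi (by omega)⟩
  | succ k ih =>
    intro a hk ha h1 h2
    have hnf : ¬ Fd X kd ds a := fun hf => by
      have := hL.fd_tie hX hf hp h1 h2
      omega
    obtain ⟨g, hg', h3, h4⟩ := Lv2.gate_of ha hnf
    have t : T3 X kd g a p := hX.t3 hg' ha hp h3 h1
    have h5 := hL.dp_asc t h4
    obtain ⟨e₁, t₁, h6, _⟩ := hL.one_ds hX hg' hp t.gp (by omega) (by omega)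
    have hne : a ≠ e₁ := by
      rintro rfl
      exact h4 h6
    have h7 := hL.dp_ds t₁ h6
    obtain ⟨e', g', hN, he, ht, hd⟩ := ih e₁ (by omega) t₁.2.1 t₁.ep (by omega)
    refine ⟨fun i => Nat.casesOn i a (fun j => e' j), fun i => Nat.casesOn i g (fun j => g' j), ?_, rfl,
      ht, ?_⟩
    · intro i hi
      cases i with
      | zero =>
        refine ⟨t, ?_, ?_, ?_⟩
        · show T3 X kd g (e' 0) p
          rw [he]; exact t₁
        · show a ≠ e' 0
          rw [he]; exact hne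
        · intro hi' h8
          have h8' : g = g' 0 := h8
          apply hd 0 (by omega)
          rw [← h8', he]; exact h6
      | succ i =>
        obtain ⟨a1, a2, a3, a4⟩ := hN i (by omega)
        exact ⟨a1, a2, a3, fun hi' => a4 (by omega)⟩
    · intro i hi
      cases i with
      | zero => exact h4
      | succ i => exact hd i (by omega)

/-- if the gate of a point is fixed then the gates of the fixed hyperedges of small depth are fixed -/
theorem gate_fx (hX : LX X kd m) (hL : Lv2 X kd m lv dp ds an o) (hF : FixC X kd m FX) {v p e g : W}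
    (hv : kd v = 0) (hp : kd p = 2) (hvp : X.Edge v p) (h0 : dp v p = 0) (fv : FX v) (he : kd e = 1)
    (hep : X.Edge e p) (h1 : 2 * dp e p + 1 ≤ m p) (fe : FX e) (hg : kd g = 0) (hge : X.Edge g e)
    (hd : ¬ ds g e) : FX g := by
  obtain ⟨e', g', hN, he0, ht, hd'⟩ := exists_desc hX hL hv hp hvp h0 _ e rfl he hep h1
  rcases Nat.eq_zero_or_pos (dp e p) with hk | hk
  · rw [hk, he0] at ht
    have h2 : ¬ ds v e := fun h => by
      have := hL.dp_ds ht h
      omega
    rw [hL.gate_u g v e hg hv he hge ht.ge hd h2]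
    exact fv
  · have h3 := hF.conv p _ e' g' hp hN (by omega) (by rw [he0]; exact fe)
      (hF.ge v _ hv ht.2.1 ht.ge fv) 0 hk
    have h4 := (hN 0 hk).1
    rw [he0] at h4
    have h5 := hd' 0 hk
    rw [he0] at h5
    rw [hL.gate_u g (g' 0) e hg h4.1 he hge h4.ge hd h5]
    exact h3

section con

variable (hX : LX X kd m) (hL : Lv2 X kd m lv dp ds an o) (hF : FixC X kd m FX)
  (hD : Dst X kd m dp (Fh X kd ds FX) dst)
include hX hL hF hD

/-- descent to the minimal vertices of the fixed part -/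
theorem con_desc {p : W} (hp : kd p = 2) : ∀ (k : ℕ) (y : W), (kd y = 0 → 2 * dp y p ≤ k) →
    (kd y = 1 → 2 * dp y p + 1 ≤ k) → DV X (rk2 X kd m lv dp (Fh X kd ds FX) dst) p y → FX y →
    ∃ v, (DF X (rk2 X kd m lv dp (Fh X kd ds FX) dst) FX p).Reachable y v ∧
      DV X (rk2 X kd m lv dp (Fh X kd ds FX) dst) p v ∧ FX v ∧
      ((kd v = 0 ∧ dp v p = 0) ∨ (kd v = 1 ∧ Fh X kd ds FX v)) := by
  have hF3 := fixP3 hX hL hF
  have hmu := hX.mu p hp
  intro k
  induction k with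
  | zero =>
    intro y h0 h1 hy fy
    rcases dv_cases hX hL hF3 hD hp hy with ⟨a1, a2, a3⟩ | ⟨a1, a2, a3, a4⟩
    · have h2 := h0 a1
      exact ⟨y, SimpleGraph.Reachable.refl _, hy, fy, Or.inl ⟨a1, by omega⟩⟩
    · have h2 := h1 a1
      omega
  | succ k ih =>
    intro y h0 h1 hy fy
    rcases dv_cases hX hL hF3 hD hp hy with ⟨a1, a2, a3⟩ | ⟨a1, a2, a3, a4⟩
    · have h2 := h0 a1
      by_cases h3 : dp y p = 0
      · exact ⟨y, SimpleGraph.Reachable.refl _, hy, fy, Or.inl ⟨a1, h3⟩⟩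
      · obtain ⟨e, he, hds, -⟩ := Lv2.one_ds hX hL a1 hp a2 (by omega) (by omega)
        have h4 := Lv2.dp_ds hL he hds
        have h5 := dv_hy hL hF3 hD hp he.2.1 he.ep (by omega)
        have fe : FX e := hF.ge y e a1 he.2.1 he.ge fy
        have h6 : (DF X (rk2 X kd m lv dp (Fh X kd ds FX) dst) FX p).Adj y e :=
          ⟨mk_adj he hy h5, fy, fe⟩
        obtain ⟨v, b1, b2, b3, b4⟩ := ih e (fun h => by
          have := he.2.1
          omega) (fun _ => by omega) h5 fe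
        exact ⟨v, h6.reachable.trans b1, b2, b3, b4⟩
    · have h2 := h1 a1
      by_cases hf : Fh X kd ds FX y
      · exact ⟨y, SimpleGraph.Reachable.refl _, hy, fy, Or.inr ⟨a1, hf⟩⟩
      · have h3 : ∃ g, kd g = 0 ∧ X.Edge g y ∧ ¬ ds g y ∧ FX g := by
          by_contra hcon
          push Not at hcon
          exact hf ⟨fy, fun _ g hg hge hd => hcon g hg hge hd⟩
        obtain ⟨g, hg, hge, hds, fg⟩ := h3
        have ht := hX.t3 hg a1 hp hge a2
        have h4 := Lv2.dp_asc hL ht hds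
        have h5 : DV X (rk2 X kd m lv dp (Fh X kd ds FX) dst) p g := dv_ch hL hp hg ht.gp (by omega)
        have h6 : (DF X (rk2 X kd m lv dp (Fh X kd ds FX) dst) FX p).Adj y g :=
          ⟨(mk_adj ht h5 hy).symm, fy, fg⟩
        obtain ⟨v, b1, b2, b3, b4⟩ := ih g (fun _ => by omega) (fun h => by omega) h5 fg
        exact ⟨v, h6.reachable.trans b1, b2, b3, b4⟩

/-- the fixed part of the descending link of a point is connected -/
theorem con_pt {p y z : W} (hp : kd p = 2) (hy : DV X (rk2 X kd m lv dp (Fh X kd ds FX) dst) p y)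
    (hz : DV X (rk2 X kd m lv dp (Fh X kd ds FX) dst) p z) (fy : FX y) (fz : FX z) :
    (DF X (rk2 X kd m lv dp (Fh X kd ds FX) dst) FX p).Reachable y z := by
  have hF3 := fixP3 hX hL hF
  obtain ⟨v, a1, a2, a3, a4⟩ := con_desc hX hL hF hD hp (2 * dp y p + 1) y (fun _ => by omega)
    (fun _ => by omega) hy fy
  obtain ⟨w, b1, b2, b3, b4⟩ := con_desc hX hL hF hD hp (2 * dp z p + 1) z (fun _ => by omega)
    (fun _ => by omega) hz fz
  suffices h : v = w by
    subst h
    exact a1.trans b1.symm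
  have hmix : ∀ v w, DV X (rk2 X kd m lv dp (Fh X kd ds FX) dst) p v →
      DV X (rk2 X kd m lv dp (Fh X kd ds FX) dst) p w → kd v = 0 → dp v p = 0 → FX v → kd w = 1 →
      Fh X kd ds FX w → False := by
    intro v w hv hw h1 h2 h3 h4 h5
    rcases dv_cases hX hL hF3 hD hp hw with ⟨c1, _, _⟩ | ⟨c1, c2, c3, c4⟩
    · omega
    have hvp : X.Edge v p := X.symm _ _ hv.1
    have hnf : ¬ Fd X kd ds w := by
      intro hf
      have h6 := hL.fd_tie hX hf hp c2 c3
      exact hL.cg_hg v w p h1 hp hvp h2 hf c2 h6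
    obtain ⟨g, hg, hge, hds⟩ := Lv2.gate_of h4 hnf
    exact h5.2 h4 g hg hge hds (gate_fx hX hL hF h1 hp hvp h2 h3 h4 c2 c3 h5.1 hg hge hds)
  rcases a4 with ⟨a4, a5⟩ | ⟨a4, a5⟩ <;> rcases b4 with ⟨b4, b5⟩ | ⟨b4, b5⟩
  · exact hL.cg_u v w p a4 b4 hp (X.symm _ _ a2.1) (X.symm _ _ b2.1) a5 b5
  · exact (hmix v w a2 b2 a4 a5 a3 b4 b5).elim
  · exact (hmix w v b2 a2 b4 b5 b3 a4 a5).elim
  · exact (good_pt hX hL hF3 hD hp).uni v w a2 b2 (Or.inl ⟨hp, a4, a5⟩) (Or.inl ⟨hp, b4, b5⟩)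

/-- the fixed part of the descending link of a fixed hyperedge is connected -/
theorem con_hy {e y z : W} (he : kd e = 1) (fe : FX e)
    (hy : DV X (rk2 X kd m lv dp (Fh X kd ds FX) dst) e y)
    (hz : DV X (rk2 X kd m lv dp (Fh X kd ds FX) dst) e z) (fy : FX y) (fz : FX z) :
    (DF X (rk2 X kd m lv dp (Fh X kd ds FX) dst) FX e).Reachable y z := by
  have hF3 := fixP3 hX hL hF
  by_cases hg : ∃ g, kd g = 0 ∧ X.Edge g e ∧ ¬ ds g e ∧ FX g
  · obtain ⟨g, hg, hge, hds, fg⟩ := hg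
    have hgR : rk2 X kd m lv dp (Fh X kd ds FX) dst g < rk2 X kd m lv dp (Fh X kd ds FX) dst e :=
      (ge_iff hL hg he hge).2.2 hds
    have key : ∀ y, DV X (rk2 X kd m lv dp (Fh X kd ds FX) dst) e y → FX y →
        (DF X (rk2 X kd m lv dp (Fh X kd ds FX) dst) FX e).Reachable y g := by
      intro y hy fy
      rcases gdc_hv hX hL hF3 hD he hy with ⟨h1, h2, h3⟩ | ⟨h1, h2, h3⟩
      · rw [hL.gate_u y g e h1 hg he h2 hge h3 hds]
      · have t := hX.t3 hg he h1 hge h2
        have a : (DF X (rk2 X kd m lv dp (Fh X kd ds FX) dst) FX e).Adj y g :=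
          ⟨⟨X.rot _ _ _ t.2.2.2, hy.2, hgR⟩, fy, fg⟩
        exact a.reachable
    exact (key y hy fy).trans (key z hz fz).symm
  · push Not at hg
    have hf : Fh X kd ds FX e := ⟨fe, fun _ => hg⟩
    have key : ∀ y, DV X (rk2 X kd m lv dp (Fh X kd ds FX) dst) e y → FX y → kd y = 2 := by
      intro y hy fy
      rcases gdc_hv hX hL hF3 hD he hy with ⟨h1, h2, h3⟩ | ⟨h1, h2, h3⟩
      · exact absurd fy (hg y h1 h2 h3)
      · exact h1
    rw [(good_hy hX hL hF3 hD he).uni y z hy hz (Or.inr ⟨he, key y hy fy, hf⟩)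
      (Or.inr ⟨he, key z hz fz, hf⟩)]

end con

end Pool.Agent.H52.T3
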