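import Pool.Agent.H52.T3.Sat
import Pool.Agent.H54.AR.Col

/-!
# Reduction to cocompact actions on typed complexes
-/

set_option autoImplicit false

namespace Pool.Agent.H52.T3

open Pool.Agent.H54
open Pool.Agent.H98.FJ Pool.Agent.H54.CX Pool.Agent.H54.CX.CV Pool.Agent.H54.DD Cls
open Pool.Agent.H52.T2
open Pool.Agent.H54.AR (sat sat_mono sat_finite cov_uniq third mid)

variable {G Q W T : Type} [Group G] [Group Q] [MulAction G W] {X : Cpx W} {kd : W → ℕ} {τ : W → T}
  {μ : T → ℕ}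

/-- an edge path is contained in a saturated subcomplex of finite type -/
theorem exists_sat_path (hT : TC2 X kd τ μ) {a b : W} {q : Cls X} (h : PC X a b q) :
    ∃ (F : Finset W) (r : Cls (CX.sub X G (sat X kd (F : Set W)))),
      PC (CX.sub X G (sat X kd (F : Set W))) a b r := by
  classical
  induction h with
  | base => exact ⟨∅, _, PC.base⟩
  | @step b c q h h' ih =>
    obtain ⟨F, r, hr⟩ := ih
    rcases h' with h' | h'
    · exact ⟨F, _, hr.step (Or.inl h')⟩
    · obtain ⟨d, hd, h1, h2⟩ := exists_cell hT h'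
      refine ⟨F ∪ {d}, _, PC.step (hr.incl (sub_mono (sat_mono (by
        intro x hx; simp only [Finset.coe_union]; exact Or.inl hx)))) ?_⟩
      refine Or.inr ⟨h', 1, ?_, ?_⟩
      · rw [one_smul]; exact ⟨d, by simp, hd, h1⟩
      · rw [one_smul]; exact ⟨d, by simp, hd, h2⟩

/-- one of the vertices of a triangle is a cell -/
theorem tri_cell (hT : TC2 X kd τ μ) {a b c : W} (h : X.Tri a b c) :
    ∃ d, kd d = 0 ∧ (d = a ∨ X.Edge d a) ∧ (d = b ∨ X.Edge d b) ∧ (d = c ∨ X.Edge d c) := by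
  obtain ⟨h1, h2, h3⟩ := tri_kd hT h
  have ha := hT.kd_le a
  have hb := hT.kd_le b
  have hc := hT.kd_le c
  rcases (by omega : kd a = 0 ∨ kd b = 0 ∨ kd c = 0) with h0 | h0 | h0
  · exact ⟨a, h0, Or.inl rfl, Or.inr (X.edge _ _ _ h), Or.inr (third h)⟩
  · exact ⟨b, h0, Or.inr (X.symm _ _ (X.edge _ _ _ h)), Or.inl rfl, Or.inr (mid h)⟩
  · exact ⟨c, h0, Or.inr (X.symm _ _ (third h)), Or.inr (X.symm _ _ (mid h)), Or.inl rfl⟩

/-- a homotopy is contained in a saturated subcomplex of finite type -/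
theorem exists_sat_htp (hT : TC2 X kd τ μ) {l m : List W} (h : X.Htp l m) :
    ∃ F : Finset W, ∀ F' : Finset W, F ⊆ F' → (CX.sub X G (sat X kd (F' : Set W))).Htp l m := by
  classical
  induction h with
  | rel l m h =>
    cases h with
    | stay u w a => exact ⟨∅, fun F' _ => Relation.EqvGen.rel _ _ (Cpx.Move.stay u w a)⟩
    | back u w a b h =>
      obtain ⟨d, hd, h1, h2⟩ := exists_cell hT h
      refine ⟨{d}, fun F' hF => Relation.EqvGen.rel _ _ (Cpx.Move.back u w a b ?_)⟩
      have hd' : d ∈ (F' : Set W) := hF (by simp)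
      exact ⟨h, 1, by rw [one_smul]; exact ⟨d, hd', hd, h1⟩,
        by rw [one_smul]; exact ⟨d, hd', hd, h2⟩⟩
    | tri u w a b c h =>
      obtain ⟨d, hd, h1, h2, h3⟩ := tri_cell hT h
      refine ⟨{d}, fun F' hF => Relation.EqvGen.rel _ _ (Cpx.Move.tri u w a b c ?_)⟩
      have hd' : d ∈ (F' : Set W) := hF (by simp)
      exact ⟨h, 1, by rw [one_smul]; exact ⟨d, hd', hd, h1⟩,
        by rw [one_smul]; exact ⟨d, hd', hd, h2⟩, by rw [one_smul]; exact ⟨d, hd', hd, h3⟩⟩
  | refl l => exact ⟨∅, fun F' _ => Relation.EqvGen.refl _⟩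
  | symm l m h ih =>
    obtain ⟨F, hF⟩ := ih
    exact ⟨F, fun F' h => (hF F' h).symm _ _⟩
  | trans l m n h h' ih ih' =>
    obtain ⟨F, hF⟩ := ih
    obtain ⟨F₁, hF₁⟩ := ih'
    exact ⟨F ∪ F₁, fun F' h => (hF F' (Finset.union_subset_left h)).trans _ _ _
      (hF₁ F' (Finset.union_subset_right h))⟩

/-- `G` is the directed colimit of the groups of the lifts -/
theorem isColimit_sat (hT : TC2 X kd τ μ) (hX : X.Inv G) (hsc : X.SC) (x₀ : W) :
    IsColimit (ι := Finset W)
      (G := fun F => Gam (CX.sub X G (sat X kd (F : Set W))) G (sub_inv hX _) x₀)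
      (fun F F' h => Gam.map (sub_mono (sat_mono (Finset.coe_subset.2 h))) (sub_inv hX _)
        (sub_inv hX _) x₀)
      (fun F => Gam.proj (CX.sub X G (sat X kd (F : Set W))) G (sub_inv hX _) x₀) where
  nonempty := ⟨∅⟩
  directed F F' := by
    classical
    exact ⟨F ∪ F', Finset.subset_union_left, Finset.subset_union_right⟩
  map_id F h x := Gam.ext rfl (incl_refl _ _)
  map_comp F F' F'' h h' h'' x := Gam.ext rfl (incl_incl _ _ _ _)
  compat F F' h x := rfl
  surj g := by
    obtain ⟨-, h1, -⟩ := sc_iff.1 hsc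
    obtain ⟨q, hq⟩ := h1 x₀ (g • x₀)
    obtain ⟨F, r, hr⟩ := exists_sat_path (G := G) hT hq
    exact ⟨F, ⟨g, r, hr⟩, rfl⟩
  ker F x hx := by
    classical
    have hg : x.g = 1 := hx
    have h1 : PC (CX.sub X G (sat X kd (F : Set W))) x₀ x₀ x.q := by
      have := x.pc
      rwa [hg, one_smul] at this
    obtain ⟨l, hl, hlq⟩ := h1.exists_list
    have h2 : X.Path l x₀ x₀ := by
      refine ⟨?_, hl.head, hl.last⟩
      refine hl.chain.imp ?_
      rintro a b (h | h)
      · exact Or.inl h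
      · exact Or.inr h.1
    obtain ⟨F₁, hF₁⟩ := exists_sat_htp (G := G) hT (hsc.contr x₀ l h2)
    refine ⟨F ∪ F₁, Finset.subset_union_left, Gam.ext hg ?_⟩
    show incl _ x.q = pt _ x₀
    rw [← hlq, incl_mk]
    exact mk_eq.2 (hF₁ _ Finset.subset_union_right)

/-- the group is a directed colimit of the groups of the lifts -/
theorem of_gam {C : (G : Type) → [Group G] → Prop} (hC : Inherits C) (h : TA2 G X kd τ μ) (x₀ : W)
    (hF : ∀ F : Finset W,
      C (Gam (CX.sub X G (sat X kd (F : Set W))) G (sub_inv h.act.inv _) x₀)) : C G :=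
  hC.colim _ _ _ _ _ (isColimit_sat h.tc h.act.inv h.sc x₀) hF

/-- the action of the group of the lifts on the cover of a saturated subcomplex -/
theorem cov_ta (h : TA2 G X kd τ μ) (F : Set W) (x₀ : W) :
    TA2 (Gam (CX.sub X G (sat X kd F)) G (sub_inv h.act.inv _) x₀)
      (cov (CX.sub X G (sat X kd F)) x₀) (fun p => kd (en p)) (fun p => τ (en p)) μ where
  tc := cov_tc2 (sub_tc2 h.tc h.act) x₀
  sc := cov_sc
  act := cov_tact ⟨sub_inv h.act.inv _, h.act.type⟩ x₀

end Pool.Agent.H52.T3
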