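import Pool.Agent.H52.T2.Defs
import Pool.Agent.H54.AR2.Gal
import Pool.Agent.H54.AR2.Link2

/-!
# Actions on typed complexes with labels, chambers with nontrivial stabilisers: definitions

As in `H54/AR2`, without the condition that the stabilisers of the chambers are trivial.
-/

set_option autoImplicit false

namespace Pool.Agent.H52.T3

open Pool.Agent.H54.CX Pool.Agent.H98.FJ Pool.Agent.H52.T2

/-- The group acts by automorphisms which preserve the types. -/
structure TA0 {W T : Type} (X : Cpx W) (τ : W → T) (G : Type) [Group G] [MulAction G W] : Prop where
  inv : X.Inv G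
  type : ∀ (g : G) (x : W), τ (g • x) = τ x

end Pool.Agent.H52.T3
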