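import Pool.Agent.H52.T3.Cnn
import Pool.Agent.H52.T2.Lv
import Pool.Agent.H52.FR.Rt

/-!
# Rooted descending links with fixed chambers
-/

set_option autoImplicit false

namespace Pool.Agent.H52.T3

open Pool.Agent.H54.CX Pool.Agent.H98.FJ Pool.Agent.H59.DE
open Pool.Agent.H52.T2 (HGr T3 LX Lv2 Fd Cg TC2 exists_lv2)
open Pool.Agent.H52.FR (DV DG Crit Good dist_ne dist_unique exists_closer)

/-- a connected subgraph of a forest contains the first edges of the paths between its vertices -/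
theorem sub_adj {V : Type*} {G H : SimpleGraph V} (hG : G.IsAcyclic) (hH : H ≤ G) {r y z : V}
    (h : H.Reachable r y) (hyz : G.Adj y z) (hd : G.dist r z < G.dist r y) : H.Adj y z := by
  classical
  obtain ⟨p, hp⟩ := h.symm.exists_isPath
  cases p with
  | nil =>
    rw [SimpleGraph.dist_self] at hd
    omega
  | @cons _ w _ h1 q =>
    have h2 : G.Adj y w := hH h1
    have h3 : ((SimpleGraph.Walk.cons h1 q).mapLe hH).IsPath := by
      rw [SimpleGraph.Walk.isPath_mapLe]
      exact hp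
    have h4 : G.Reachable r y := h.mono hH
    obtain ⟨s, hs, hsl⟩ := h4.symm.exists_path_of_dist
    have h5 : ((SimpleGraph.Walk.cons h1 q).mapLe hH) = s :=
      congrArg Subtype.val ((hG.subsingleton_path _ _).elim ⟨_, h3⟩ ⟨s, hs⟩)
    have h6 : q.length + 1 = G.dist y r := by
      rw [← hsl, ← h5, SimpleGraph.Walk.length_mapLe, SimpleGraph.Walk.length_cons]
    have h7 : G.dist w r ≤ q.length := by
      have := SimpleGraph.dist_le (q.mapLe hH)
      rwa [SimpleGraph.Walk.length_mapLe] at this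
    have h8 : G.dist r w < G.dist r y := by
      rw [SimpleGraph.dist_comm (u := r) (v := w), SimpleGraph.dist_comm (u := r) (v := y)]
      omega
    rw [dist_unique hG h4 hyz h2 hd h8]
    exact h1

variable {U T : Type} {Y : Cpx U} {kd : U → ℕ} {FX : U → Prop}

/-- rooted descending links -/
structure Rooted3 (Y : Cpx U) (kd : U → ℕ) (FX : U → Prop) {α : Type} [LinearOrder α] (R : U → α)
    (δ : U → U → ℕ) : Prop where
  rk : ∀ x y, Y.Edge x y → R x ≠ R y
  ne : ∀ x y z, Y.Tri x y z → R y < R x → R z < R x → δ x y ≠ δ x z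
  uniq : ∀ x y z z', Y.Tri x y z → Y.Tri x y z' → R y < R x → R z < R x → R z' < R x →
    δ x z < δ x y → δ x z' < δ x y → z = z'
  fx : ∀ x y z, Y.Tri x y z → R y < R x → R z < R x → δ x z < δ x y → FX x → FX y → kd z = 0 → FX z

section root

variable {α : Type} [LinearOrder α] {R : U → α}

open Classical in
/-- the root of the descending link -/
private noncomputable def rt (Y : Cpx U) (FX : U → Prop) (R : U → α) (x : U) : U :=
  if h : ∃ y, DV Y R x y ∧ FX y then h.choose else if h : ∃ y, DV Y R x y then h.choose else x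

private theorem rt_dv {x y : U} (h : DV Y R x y) : DV Y R x (rt Y FX R x) := by
  by_cases h1 : ∃ y, DV Y R x y ∧ FX y
  · rw [rt, dif_pos h1]
    exact h1.choose_spec.1
  · have h2 : ∃ y, DV Y R x y := ⟨y, h⟩
    rw [rt, dif_neg h1, dif_pos h2]
    exact h2.choose_spec

private theorem rt_fx {x y : U} (h : DV Y R x y) (hf : FX y) : FX (rt Y FX R x) := by
  have h1 : ∃ y, DV Y R x y ∧ FX y := ⟨y, h, hf⟩
  rw [rt, dif_pos h1]
  exact h1.choose_spec.2

theorem rooted_of_good {FH : U → Prop} (rk_ne : ∀ x y, Y.Edge x y → R x ≠ R y)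
    (good : ∀ x, Good Y kd R FH x)
    (con : ∀ x y z, kd x ≠ 0 → FX x → DV Y R x y → DV Y R x z → FX y → FX z →
      (DF Y R FX x).Reachable y z) (hk : ∀ x y, Y.Edge x y → kd x ≠ kd y) :
    ∃ δ : U → U → ℕ, Rooted3 Y kd FX R δ := by
  refine ⟨fun x y => (DG Y R x).dist (rt Y FX R x) y, ?_⟩
  have adj : ∀ x y z, Y.Tri x y z → R y < R x → R z < R x → (DG Y R x).Adj y z ∧ DV Y R x y :=
    fun x y z h1 h2 h3 => ⟨⟨h1, h2, h3⟩, Y.edge _ _ _ h1, h2⟩
  have rch : ∀ x y, DV Y R x y → (DG Y R x).Reachable (rt Y FX R x) y := fun x y h =>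
    (good x).con _ _ (rt_dv h) h
  refine ⟨rk_ne, ?_, ?_, ?_⟩
  · intro x y z h1 h2 h3
    obtain ⟨a, b⟩ := adj x y z h1 h2 h3
    exact dist_ne (good x).acy (rch x y b) a
  · intro x y z z' h1 h1' h2 h3 h4 h5 h6
    obtain ⟨a, b⟩ := adj x y z h1 h2 h3
    exact dist_unique (good x).acy (rch x y b) a (adj x y z' h1' h2 h4).1 h5 h6
  · intro x y z h1 h2 h3 h4 h5 h6 h7
    obtain ⟨a, b⟩ := adj x y z h1 h2 h3
    have h8 : kd x ≠ 0 := fun h => hk x z (Y.symm _ _ (Y.edge _ _ _ (Y.rot _ _ _ (Y.rot _ _ _ h1))))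
      (h.trans h7.symm)
    have h9 := con x (rt Y FX R x) y h8 h5 (rt_dv b) b (rt_fx b h6) h6
    have h10 : DF Y R FX x ≤ DG Y R x := by
      intro u v h
      exact h.1
    exact (sub_adj (good x).acy h10 h9 a h4).2.2

end root

/-- **Rooted descending links, with fixed chambers.** -/
theorem exists_rooted3 {τ : U → T} {μ : T → ℕ} (hT : TC2 Y kd τ μ) (hsc : Y.SC)
    (hF : FixC Y kd (fun p => μ (τ p)) FX) (hc : ∀ x, ∃ y, Y.Edge x y) :
    ∃ (R : U → ℕ ×ₗ ℕ) (δ : U → U → ℕ), Rooted3 Y kd FX R δ := by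
  have hX := hT.lx
  have ho : ∃ o, kd o = 0 := by
    obtain ⟨a⟩ := hsc.nonempty
    have key : ∀ e p, kd e = 1 → kd p = 2 → Y.Edge e p → ∃ o, kd o = 0 := fun e p he hp h => by
      obtain ⟨g, hg, -⟩ := hX.cell e p he hp h
      exact ⟨g, hg⟩
    obtain ⟨b, h⟩ := hc a
    have h1 := hX.kd_le a
    have h2 := hX.kd_le b
    have h3 := hX.kd_ne a b h
    by_cases h4 : kd a = 0
    · exact ⟨a, h4⟩
    by_cases h5 : kd b = 0
    · exact ⟨b, h5⟩
    by_cases h6 : kd a = 1
    · exact key a b h6 (by omega) h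
    · exact key b a (by omega) (by omega) (Y.symm _ _ h)
  obtain ⟨o, ho⟩ := ho
  obtain ⟨lv, dp, ds, an, hL⟩ := exists_lv2 hX hsc ho
  have hF3 := fixP3 hX hL hF
  obtain ⟨dst, hD⟩ := exists_dst2 hX hL hF3
  have hk : ∀ x, kd x = 0 ∨ kd x = 1 ∨ kd x = 2 := fun x => by
    have := hX.kd_le x
    omega
  obtain ⟨δ, h⟩ := rooted_of_good (R := rk2 Y kd (fun p => μ (τ p)) lv dp (Fh Y kd ds FX) dst)
    (kd := kd) (FX := FX) (FH := Fh Y kd ds FX)
    (fun x y h => rk2_ne hX hL hF3 hD h)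
    (fun x => by
      rcases hk x with h | h | h
      · exact good_ch hX hL hF3 hD h
      · exact good_hy hX hL hF3 hD h
      · exact good_pt hX hL hF3 hD h)
    (fun x y z h0 fx hy hz fy fz => by
      rcases hk x with h | h | h
      · exact absurd h h0
      · exact con_hy hX hL hF hD h fx hy hz fy fz
      · exact con_pt hX hL hF hD h hy hz fy fz)
    hX.kd_ne
  exact ⟨_, δ, h⟩

end Pool.Agent.H52.T3
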