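import Pool.Agent.H52.T3.TqSC
import Pool.Agent.H52.T3.Rt
import Pool.Agent.H52.FR.Lif

/-!
# The fixed set of the quotient of a typed complex, with fixed chambers
-/

set_option autoImplicit false

namespace Pool.Agent.H52.T3

open Pool.Agent.H54.CX Pool.Agent.H52.T2 Pool.Agent.H59.DE
open Pool.Agent.H52.FR (IsQuo FXq fx_iff)
open Pool.Agent.H54.AR2 (Sq gy_of_sq sq_of_gy gy_pos gy_fst gy_lst gy_map gir')

section gen

variable {W U T : Type} {X : Cpx W} {kd : W → ℕ} {τ : W → T} {μ : T → ℕ} {Y : Cpx U} {kd' : U → ℕ}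
  {τ' : U → T} {q : W → U} {N : Type} [Group N] [MulAction N W]

private theorem flip {V : Type} {Z : Cpx V} {a b c : V} (h : Z.Tri a b c) : Z.Tri c b a :=
  Z.rot _ _ _ (Z.rot _ _ _ (Z.swap _ _ _ h))

private theorem rot2 {V : Type} {Z : Cpx V} {a b c : V} (h : Z.Tri a b c) : Z.Tri c a b :=
  Z.rot _ _ _ (Z.rot _ _ _ h)

private theorem ed2 {V : Type} {Z : Cpx V} {a b c : V} (h : Z.Tri a b c) : Z.Edge a c :=
  Z.symm _ _ (Z.edge _ _ _ (rot2 h))

theorem kd_smul2 (hT : TC2 X kd τ μ) (ha : TA0 X τ N) (n : N) (x : W) : kd (n • x) = kd x :=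
  hT.kd_τ _ _ (ha.type n x)

theorem fix_cell2 (hT : TC2 X kd τ μ) (ha : TA0 X τ N) {c x : W} {n : N} (hc : kd c = 0)
    (h1 : X.Edge c x) (h2 : X.Edge c (n • x)) : n • x = x :=
  hT.inj c (n • x) x hc h2 h1 (ha.type n x)

theorem fix_hyp2 (hT : TC2 X kd τ μ) (ha : TA0 X τ N) {e p : W} {n : N} (he : kd e = 1)
    (hp : kd p = 2) (h1 : X.Edge e p) (h2 : X.Edge e (n • p)) : n • p = p := by
  obtain ⟨g, hg, hge⟩ := hT.cell e p he hp h1
  have hnp : kd (n • p) = 2 := (kd_smul2 hT ha n p).trans hp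
  exact fix_cell2 hT ha hg (ed2 (hT.fill g e p hg he hp hge h1))
    (ed2 (hT.fill g e (n • p) hg he hnp hge h2))

theorem q_smul2 (hq : IsQuo X kd τ Y kd' τ' q N) (n : N) (x : W) : q (n • x) = q x :=
  ((hq.orb x (n • x)).2 ⟨n, rfl⟩).symm

theorem lift_tri2 (hT : TC2 X kd τ μ) (ha : TA0 X τ N) (hq : IsQuo X kd τ Y kd' τ' q N) {x y : W}
    {c : U} (hxy : X.Edge x y) (h : Y.Tri (q x) (q y) c) : ∃ z, q z = c ∧ X.Tri x y z := by
  obtain ⟨x', y', z', h1, h2, h3, h4⟩ := (hq.tri _ _ _).1 h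
  obtain ⟨n, hn⟩ := (hq.orb x' x).1 h2
  have t1 := ha.inv.tri n x' y' z' h1
  rw [hn] at t1
  have h5 : q (n • y') = q y := (q_smul2 hq n y').trans h3
  have h6 : q (n • z') = c := (q_smul2 hq n z').trans h4
  obtain ⟨m, hm⟩ := (hq.orb _ _).1 h5
  have e1 : X.Edge x (n • y') := X.edge _ _ _ t1
  have k1 : kd (n • y') = kd y := by rw [← hm, kd_smul2 hT ha m]
  suffices hk : ∃ k : N, k • x = x ∧ k • (n • y') = y by
    obtain ⟨k, k1, k2⟩ := hk
    refine ⟨k • (n • z'), (q_smul2 hq k _).trans h6, ?_⟩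
    have := ha.inv.tri k _ _ _ t1
    rwa [k1, k2] at this
  have hyx : X.Edge y x := X.symm _ _ hxy
  have e2 : X.Edge y (m • x) := by
    have := ha.inv.edge m _ _ (X.symm _ _ e1)
    rwa [hm] at this
  have e3 : X.Edge x (m • (n • y')) := by rwa [hm]
  have a1 := hT.kd_ne _ _ hxy
  have a2 := hT.kd_le x
  have a3 := hT.kd_le y
  by_cases c0 : kd x = 0
  · have := fix_cell2 hT ha c0 e1 e3
    exact ⟨1, one_smul _ _, by rw [one_smul, ← hm, this]⟩
  by_cases c1 : kd y = 0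
  · exact ⟨m, fix_cell2 hT ha c1 hyx e2, hm⟩
  by_cases c2 : kd x = 2
  · exact ⟨m, fix_hyp2 hT ha (by omega) c2 hyx e2, hm⟩
  · have := fix_hyp2 hT ha (by omega) (by omega) e1 e3
    exact ⟨1, one_smul _ _, by rw [one_smul, ← hm, this]⟩

/-- an element of the group which fixes the ends of an edge fixes everything which the elements of one end fix -/
def Full3 (X : Cpx W) (N : Type) [Group N] [MulAction N W] : Prop :=
  ∀ x y, X.Edge x y → ∀ n : N, n ≠ 1 → n • x = x → n • y = y → ∀ n' : N, n' • x = x → n' • y = y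

theorem lift_edge3 (ha : TA0 X τ N) (hq : IsQuo X kd τ Y kd' τ' q N) {x : W} {b : U}
    (h : Y.Edge (q x) b) : ∃ y, q y = b ∧ X.Edge x y := by
  obtain ⟨x', y', h1, h2, h3⟩ := (hq.edge _ _).1 h
  obtain ⟨n, hn⟩ := (hq.orb x' x).1 h2
  refine ⟨n • y', (q_smul2 hq n y').trans h3, ?_⟩
  have := ha.inv.edge n x' y' h1
  rwa [hn] at this

/-- galleries lift -/
theorem nb_lift (hT : TC2 X kd τ μ) (ha : TA0 X τ N) (hq : IsQuo X kd τ Y kd' τ' q N) {p : W} :
    ∀ (k : ℕ) (e g : ℕ → U), Nb Y kd' (q p) k e g → ∀ a₀ : W, q a₀ = e 0 → X.Edge a₀ p →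
      ∃ e₀ g₀ : ℕ → W, Nb X kd p k e₀ g₀ ∧ e₀ 0 = a₀ ∧ (∀ i, i ≤ k → q (e₀ i) = e i) ∧
        ∀ i, i < k → q (g₀ i) = g i := by
  intro k
  induction k with
  | zero =>
    intro e g _ a₀ h1 h2
    exact ⟨fun _ => a₀, fun _ => a₀, fun i hi => absurd hi (by omega), rfl, fun i hi => by
      obtain rfl : i = 0 := by omega
      exact h1, fun i hi => absurd hi (by omega)⟩
  | succ k ih =>
    intro e g hN a₀ h1 h2
    obtain ⟨⟨g1, g2, g3, g4⟩, ⟨-, g6, -, g8⟩, g9, g10⟩ := hN 0 (by omega)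
    rw [← h1] at g4
    obtain ⟨g₀, hg₀, k1⟩ := lift_tri2 hT ha hq h2 (Y.rot _ _ _ g4)
    rw [← hg₀] at g8
    obtain ⟨c₀, hc₀, k2⟩ := lift_tri2 hT ha hq (X.edge _ _ _ (X.rot _ _ _ k1)) (rot2 g8)
    have hg0 : kd g₀ = 0 := by rw [← hq.kd, hg₀]; exact g1
    have ha0 : kd a₀ = 1 := by rw [← hq.kd, h1]; exact g2
    have hp0 : kd p = 2 := by rw [← hq.kd]; exact g3
    have hc0 : kd c₀ = 1 := by rw [← hq.kd, hc₀]; exact g6
    have t1 : T3 X kd g₀ a₀ p := ⟨hg0, ha0, hp0, rot2 k1⟩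
    have t2 : T3 X kd g₀ c₀ p := ⟨hg0, hc0, hp0, X.rot _ _ _ k2⟩
    obtain ⟨e', g', hN', he', hqe, hqg⟩ := ih (fun i => e (i + 1)) (fun i => g (i + 1))
      (fun i hi => by
        obtain ⟨b1, b2, b3, b4⟩ := hN (i + 1) (by omega)
        exact ⟨b1, b2, b3, fun hi' => b4 (by omega)⟩) c₀ hc₀ t2.ep
    refine ⟨fun i => Nat.casesOn i a₀ (fun j => e' j), fun i => Nat.casesOn i g₀ (fun j => g' j), ?_,
      rfl, ?_, ?_⟩
    · intro i hi
      cases i with
      | zero =>
        refine ⟨t1, ?_, ?_, ?_⟩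
        · show T3 X kd g₀ (e' 0) p
          rw [he']; exact t2
        · show a₀ ≠ e' 0
          rw [he']
          intro h
          apply g9
          rw [← h1, h, hc₀]
        · intro hi' h
          have h' : g₀ = g' 0 := h
          apply g10 hi'
          rw [← hg₀, h', hqg 0 (by omega)]
      | succ i =>
        obtain ⟨a1, a2, a3, a4⟩ := hN' i (by omega)
        exact ⟨a1, a2, a3, fun hi' => a4 (by omega)⟩
    · intro i hi
      cases i with
      | zero => exact h1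
      | succ i => exact hqe i (by omega)
    · intro i hi
      cases i with
      | zero => exact hg₀
      | succ i => exact hqg i (by omega)

/-- a gallery between two fixed hyperedges without fixed chambers is long -/
theorem far_core (hT : TC2 X kd τ μ) (ha : TA0 X τ N) {p : W} {n : N} (hp : n • p = p) {j : ℕ}
    {e g : ℕ → W} (hN : Nb X kd p (j + 1) e g) (hfa : n • e 0 = e 0) (hfb : n • e (j + 1) = e (j + 1))
    (hgf : ∀ i, i ≤ j → n • g i ≠ g i) : μ (τ p) ≤ j + 1 := by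
  have hg : ∀ i, i ≤ j → T3 X kd (g i) (e i) p ∧ T3 X kd (g i) (e (i + 1)) p := fun i hi =>
    ⟨(hN i (by omega)).1, (hN i (by omega)).2.1⟩
  have hgg : ∀ i, i + 1 ≤ j → g i ≠ g (i + 1) := fun i hi => (hN i (by omega)).2.2.2 (by omega)
  have hee : ∀ i, i ≤ j → e i ≠ e (i + 1) := fun i hi => (hN i (by omega)).2.2.1
  have hsm : ∀ {x y : W}, T3 X kd x y p → T3 X kd (n • x) (n • y) p := by
    rintro x y ⟨h1, h2, h3, h4⟩
    refine ⟨(kd_smul2 hT ha n x).trans h1, (kd_smul2 hT ha n y).trans h2, h3, ?_⟩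
    have := ha.inv.tri n _ _ _ h4
    rwa [hp] at this
  have hS : Sq X kd p (2 * j + 1 + 1)
      (fun i => if i ≤ j then g i else if i ≤ 2 * j + 1 then n • g (2 * j + 1 - i) else g 0)
      (fun i => if i ≤ j then e (i + 1) else n • e (2 * j + 1 - i)) := by
    refine ⟨?_, ?_, ?_, ?_⟩
    · intro i hi
      by_cases h1 : i ≤ j
      · simp only [if_pos h1]
        exact (hg i h1).2
      · simp only [if_neg h1, if_pos (show i ≤ 2 * j + 1 by omega)]
        exact hsm (hg _ (by omega)).1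
    · intro i hi
      by_cases h1 : i + 1 ≤ j
      · simp only [if_pos h1, if_pos (show i ≤ j by omega)]
        exact (hg _ h1).1
      by_cases h2 : i ≤ j
      · obtain rfl : i = j := by omega
        simp only [if_neg h1, le_refl, if_true, if_pos (show i + 1 ≤ 2 * i + 1 by omega)]
        have h3 := hsm (hg i le_rfl).2
        rw [hfb] at h3
        rw [show 2 * i + 1 - (i + 1) = i by omega]
        exact h3
      by_cases h3 : i + 1 ≤ 2 * j + 1
      · simp only [if_neg h1, if_neg h2, if_pos h3]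
        have h4 := hsm (hg (2 * j + 1 - (i + 1)) (by omega)).2
        rwa [show 2 * j + 1 - (i + 1) + 1 = 2 * j + 1 - i by omega] at h4
      · simp only [if_neg h1, if_neg h2, if_neg h3]
        have h4 := (hg 0 (by omega)).1
        rw [show 2 * j + 1 - i = 0 by omega, hfa]
        exact h4
    · intro i hi
      by_cases h1 : i + 1 ≤ j
      · simp only [if_pos h1, if_pos (show i ≤ j by omega)]
        exact hgg i h1
      by_cases h2 : i ≤ j
      · obtain rfl : i = j := by omega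
        simp only [if_neg h1, le_refl, if_true, if_pos (show i + 1 ≤ 2 * i + 1 by omega)]
        rw [show 2 * i + 1 - (i + 1) = i by omega]
        exact (hgf i le_rfl).symm
      by_cases h3 : i + 1 ≤ 2 * j + 1
      · simp only [if_neg h1, if_neg h2, if_pos h3, if_pos (show i ≤ 2 * j + 1 by omega)]
        intro h4
        have h5 := smul_left_cancel _ h4
        rw [show 2 * j + 1 - i = 2 * j + 1 - (i + 1) + 1 by omega] at h5
        exact hgg _ (by omega) h5.symm
      · simp only [if_neg h1, if_neg h2, if_neg h3, if_pos (show i ≤ 2 * j + 1 by omega)]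
        rw [show 2 * j + 1 - i = 0 by omega]
        exact hgf 0 (by omega)
    · intro i hi
      by_cases h1 : i + 1 ≤ j
      · simp only [if_pos h1, if_pos (show i ≤ j by omega)]
        exact (hee _ h1).symm
      by_cases h2 : i ≤ j
      · obtain rfl : i = j := by omega
        simp only [if_neg h1, le_refl, if_true]
        rw [show 2 * i + 1 - (i + 1) = i by omega, ← hfb]
        intro h3
        have h5 := smul_left_cancel _ h3
        exact hee _ le_rfl h5
      · simp only [if_neg h1, if_neg h2]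
        intro h4
        have h5 := smul_left_cancel _ h4
        rw [show 2 * j + 1 - i = 2 * j + 1 - (i + 1) + 1 by omega] at h5
        exact hee _ (by omega) h5
  have hG := gy_of_sq hS
  simp only [Nat.zero_le, if_true, if_neg (show ¬ 2 * j + 1 ≤ j by omega), Nat.sub_self,
    if_neg (show ¬ 2 * j + 1 + 1 ≤ j by omega), if_neg (show ¬ 2 * j + 1 + 1 ≤ 2 * j + 1 by omega),
    hfa] at hG
  have := hT.gir p _ _ _ _ hG (fun h => hee 0 (by omega) h.symm)
  omega

/-- the fixed set of the quotient -/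
theorem fixC (hT : TC2 X kd τ μ) (ha : TA0 X τ N) (hfull : Full3 X N)
    (hq : IsQuo X kd τ Y kd' τ' q N) : FixC Y kd' (fun p => μ (τ' p)) (FXq q N) := by
  constructor
  · intro g e hg he hge hfg
    obtain ⟨g0, rfl⟩ := hq.surj g
    obtain ⟨e0, rfl, h1⟩ := lift_edge3 ha hq hge
    obtain ⟨n, n1, n2⟩ := (fx_iff hq).1 hfg
    rw [hq.kd] at hg
    have h2 := ha.inv.edge n _ _ h1
    rw [n2] at h2
    exact (fx_iff hq).2 ⟨n, n1, fix_cell2 hT ha hg h1 h2⟩
  · intro e p he hp hep hfe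
    obtain ⟨e0, rfl⟩ := hq.surj e
    obtain ⟨p0, rfl, h1⟩ := lift_edge3 ha hq hep
    obtain ⟨n, n1, n2⟩ := (fx_iff hq).1 hfe
    rw [hq.kd] at he hp
    have h2 := ha.inv.edge n _ _ h1
    rw [n2] at h2
    exact (fx_iff hq).2 ⟨n, n1, fix_hyp2 hT ha he hp h1 h2⟩
  · intro p k e g hp hN hk f0 fk i hi
    obtain ⟨p0, rfl⟩ := hq.surj p
    have t0 := (hN 0 (by omega)).1
    obtain ⟨a₀, ha₀, h1⟩ := lift_edge3 ha hq (Y.symm _ _ t0.ep)
    obtain ⟨e₀, g₀, hN', he0, hqe, hqg⟩ := nb_lift hT ha hq k e g hN a₀ ha₀ (X.symm _ _ h1)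
    have hp0 : kd p0 = 2 := by rwa [← hq.kd]
    rw [← ha₀] at f0
    rw [← hqe k le_rfl] at fk
    obtain ⟨n, n1, n2⟩ := (fx_iff hq).1 f0
    obtain ⟨n', n1', n2'⟩ := (fx_iff hq).1 fk
    have ha0 : kd a₀ = 1 := by rw [← hq.kd, ha₀]; exact t0.2.1
    have hap : X.Edge a₀ p0 := X.symm _ _ h1
    have n3 : n • p0 = p0 := by
      have h5 := ha.inv.edge n _ _ hap
      rw [n2] at h5
      exact fix_hyp2 hT ha ha0 hp0 hap h5
    have tk := (hN' (k - 1) (by omega)).2.1
    rw [show k - 1 + 1 = k by omega] at tk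
    have n3' : n' • p0 = p0 := by
      have h5 := ha.inv.edge n' _ _ tk.ep
      rw [n2'] at h5
      exact fix_hyp2 hT ha tk.2.1 hp0 tk.ep h5
    have n4 : n • e₀ k = e₀ k := hfull p0 (e₀ k) (X.symm _ _ tk.ep) n' n1' n3' n2' n n3
    rw [← hqg i hi, fx_iff hq]
    refine ⟨n, n1, ?_⟩
    by_contra hcon
    -- the last fixed hyperedge before and the first fixed hyperedge after the chamber
    classical
    have hP : ∃ a, a ≤ i ∧ n • e₀ (i - a) = e₀ (i - a) := ⟨i, le_rfl, by rw [Nat.sub_self, he0]; exact n2⟩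
    have hQ : ∃ b, i < b ∧ n • e₀ b = e₀ b := ⟨k, hi, n4⟩
    obtain ⟨a, ha', ha''⟩ : ∃ a, a = Nat.find hP ∧ (a ≤ i ∧ n • e₀ (i - a) = e₀ (i - a)) :=
      ⟨_, rfl, Nat.find_spec hP⟩
    obtain ⟨b, hb', hb''⟩ : ∃ b, b = Nat.find hQ ∧ (i < b ∧ n • e₀ b = e₀ b) :=
      ⟨_, rfl, Nat.find_spec hQ⟩
    have hbk : b ≤ k := by
      rw [hb']
      exact Nat.find_min' hQ ⟨hi, n4⟩
    have hne : ∀ j, i - a < j → j < b → n • e₀ j ≠ e₀ j := by
      intro j h1 h2 h3
      rcases Nat.lt_or_ge i j with h4 | h4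
      · exact Nat.find_min hQ (by rw [← hb']; exact h2) ⟨h4, h3⟩
      · refine Nat.find_min hP (m := i - j) (by rw [← ha']; omega) ⟨by omega, ?_⟩
        rw [show i - (i - j) = j by omega]
        exact h3
    -- a fixed chamber has fixed hyperedges
    have hch : ∀ j, j < k → n • g₀ j = g₀ j → n • e₀ j = e₀ j ∧ n • e₀ (j + 1) = e₀ (j + 1) := by
      intro j hj hf
      obtain ⟨t1, t2, -, -⟩ := hN' j hj
      have u1 := ha.inv.edge n _ _ t1.ge
      have u2 := ha.inv.edge n _ _ t2.ge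
      rw [hf] at u1 u2
      exact ⟨fix_cell2 hT ha t1.1 t1.ge u1, fix_cell2 hT ha t2.1 t2.ge u2⟩
    have hgf : ∀ j, i - a ≤ j → j < b → n • g₀ j ≠ g₀ j := by
      intro j h1 h2 h3
      obtain ⟨h4, h5⟩ := hch j (by omega) h3
      have h6 : j = i - a := by
        by_contra h
        exact hne j (by omega) h2 h4
      have h7 : j + 1 = b := by
        by_contra h
        exact hne (j + 1) (by omega) (by omega) h5
      have h8 : j = i := by omega
      rw [h8] at h3
      exact hcon h3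
    obtain ⟨c, hc⟩ : ∃ c, b - (i - a) = c + 1 := ⟨b - (i - a) - 1, by omega⟩
    have hfar := far_core hT ha n3 (j := c) (e := fun j => e₀ (i - a + j)) (g := fun j => g₀ (i - a + j))
      (fun j hj => by
        obtain ⟨a1, a2, a3, a4⟩ := hN' (i - a + j) (by omega)
        exact ⟨a1, a2, a3, fun hj' => a4 (by omega)⟩) (by rw [Nat.add_zero]; exact ha''.2)
      (by
        rw [show i - a + (c + 1) = b by omega]
        exact hb''.2) (fun j hj => hgf _ (by omega) (by omega))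
    have hk' : k < μ (τ p0) := by
      have h9 : k < μ (τ' (q p0)) := hk
      rwa [hq.ty] at h9
    omega

end gen

section quo

open Pool.Agent.H98.FJ Pool.Agent.H93.TR Pool.Agent.H54.DD Pool.Agent.H54.AR

variable {P W T : Type} [Group P] [MulAction P W] {X : Cpx W} {kd : W → ℕ} {τ : W → T} {μ : T → ℕ}

/-- the quotient is a quotient -/
theorem isQuo_tquo (hT : TC2 X kd τ μ) (ha : TA0 X τ P) (N : Subgroup P) :
    IsQuo X kd τ (tquo hT ha N) (qkd hT ha N) (qτ ha N) (orb N) N where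
  surj := orb_surj N
  orb x y := by
    rw [orb_eq_iff]
    constructor
    · rintro ⟨n, hn, h⟩
      exact ⟨⟨n, hn⟩⁻¹, by rw [← h]; exact inv_smul_smul (⟨n, hn⟩ : N) y⟩
    · rintro ⟨n, h⟩
      exact ⟨(n⁻¹).1, (n⁻¹).2, by rw [← h]; exact inv_smul_smul n x⟩
  edge a b := by
    constructor
    · rintro ⟨x, y, hx, hy, h⟩
      exact ⟨x, y, h, hx, hy⟩
    · rintro ⟨x, y, h, hx, hy⟩
      exact ⟨x, y, hx, hy, h⟩
  tri a b c := by
    constructor
    · rintro ⟨x, y, z, hx, hy, hz, h⟩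
      exact ⟨x, y, z, h, hx, hy, hz⟩
    · rintro ⟨x, y, z, h, hx, hy, hz⟩
      exact ⟨x, y, z, hx, hy, hz, h⟩
  kd x := rfl
  ty x := rfl

end quo

end Pool.Agent.H52.T3
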