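import Pool.Agent.H52.T2.Lvb

/-!
# The fixed set of the quotient: definitions

`FX x`: the stabiliser of the vertex `x` is nontrivial; now `x` may be a chamber. The set `FX` is convex in the links of
the points. `Fh`: the points of `FX` and the hyperedges of `FX` whose gate is not in `FX`. Such hyperedges are far from each
other in the links.
-/

set_option autoImplicit false

namespace Pool.Agent.H52.T3

open Pool.Agent.H54.CX Pool.Agent.H98.FJ Pool.Agent.H59.DE Pool.Agent.H52.T2

variable {W : Type} {X : Cpx W} {kd : W → ℕ} {m : W → ℕ} {o : W} {lv : W → ℕ} {dp : W → W → ℕ}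
  {ds : W → W → Prop} {an : W → W → ℝ} {FX : W → Prop}

/-- `e` and `g` are the hyperedges and the chambers of a gallery at `p` with `k` chambers -/
def Nb (X : Cpx W) (kd : W → ℕ) (p : W) (k : ℕ) (e g : ℕ → W) : Prop :=
  ∀ i, i < k → T3 X kd (g i) (e i) p ∧ T3 X kd (g i) (e (i + 1)) p ∧ e i ≠ e (i + 1) ∧
    (i + 1 < k → g i ≠ g (i + 1))

/-- the properties of the set of the vertices with nontrivial stabiliser -/
structure FixC (X : Cpx W) (kd : W → ℕ) (m : W → ℕ) (FX : W → Prop) : Prop where
  ge : ∀ g e, kd g = 0 → kd e = 1 → X.Edge g e → FX g → FX e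
  pt : ∀ e p, kd e = 1 → kd p = 2 → X.Edge e p → FX e → FX p
  conv : ∀ p k e g, kd p = 2 → Nb X kd p k e g → k < m p → FX (e 0) → FX (e k) → ∀ i, i < k → FX (g i)

/-- the hyperedges of `FX` whose gate is not in `FX`, the points of `FX` -/
def Fh (X : Cpx W) (kd : W → ℕ) (ds : W → W → Prop) (FX : W → Prop) (x : W) : Prop :=
  FX x ∧ (kd x = 1 → ∀ g, kd g = 0 → X.Edge g x → ¬ ds g x → ¬ FX g)

/-- the property of `Fh` which is used -/
structure FixP3 (X : Cpx W) (kd : W → ℕ) (m : W → ℕ) (dp : W → W → ℕ) (FX : W → Prop) : Prop where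
  pt : ∀ e p, kd e = 1 → kd p = 2 → X.Edge e p → FX e → FX p
  far : ∀ e e' p, kd e = 1 → kd e' = 1 → kd p = 2 → X.Edge e p → X.Edge e' p → FX e → FX e' → e ≠ e' →
    2 * dp e p + 1 ≤ m p → 2 * dp e' p + 1 ≤ m p → ∀ w : (HGr X kd p).Walk e e', m p ≤ w.length

/-- a path gives a gallery -/
theorem exists_nb (hX : LX X kd m) {p a b : W} (v : (HGr X kd p).Walk a b) (hpath : v.IsPath) :
    ∃ e g : ℕ → W, Nb X kd p v.length e g ∧ e 0 = a ∧ e v.length = b := by
  classical
  obtain ⟨e, he⟩ : ∃ e : ℕ → W, e = v.getVert := ⟨_, rfl⟩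
  have he0 : e 0 = a := by rw [he]; exact v.getVert_zero
  have hej : e v.length = b := by rw [he]; exact v.getVert_length
  have hadj : ∀ i, i < v.length → (HGr X kd p).Adj (e i) (e (i + 1)) := by
    intro i hi
    rw [he]
    exact v.adj_getVert_succ hi
  have hinj : ∀ i i', i ≤ v.length → i' ≤ v.length → e i = e i' → i = i' := by
    intro i i' hi hi' h
    rw [he] at h
    exact hpath.getVert_injOn (by simpa using hi) (by simpa using hi') h
  have hch : ∀ i, ∃ g, i < v.length → T3 X kd g (e i) p ∧ T3 X kd g (e (i + 1)) p := by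
    intro i
    by_cases hi : i < v.length
    · obtain ⟨-, g, hg⟩ := hadj i hi
      exact ⟨g, fun _ => hg⟩
    · exact ⟨a, fun h => absurd h hi⟩
  choose g hg using hch
  refine ⟨e, g, fun i hi => ⟨(hg i hi).1, (hg i hi).2, fun h => ?_, fun hi' h => ?_⟩, he0, hej⟩
  · have := hinj _ _ (by omega) (by omega) h
    omega
  · obtain ⟨h1, h2⟩ := hg i hi
    obtain ⟨h3, h4⟩ := hg (i + 1) hi'
    rw [← h] at h4
    rcases hX.two_eq h1 h2 h4 with h5 | h5 | h5
    · have := hinj _ _ (by omega) (by omega) h5
      omega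
    · have := hinj _ _ (by omega) (by omega) h5
      omega
    · have := hinj _ _ (by omega) (by omega) h5
      omega

/-- the depth changes by at most one along a gallery -/
theorem dp_step (hL : Lv2 X kd m lv dp ds an o) {g e e' p : W} (h : T3 X kd g e p) (h' : T3 X kd g e' p) :
    dp e' p ≤ dp e p + 1 := by
  by_cases h1 : ds g e
  · have h2 := hL.dp_ds h h1
    by_cases h3 : ds g e'
    · have h4 := hL.dp_ds h' h3
      omega
    · have h4 := hL.dp_asc h' h3
      omega
  · have h2 := hL.dp_asc h h1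
    by_cases h3 : ds g e'
    · have h4 := hL.dp_ds h' h3
      omega
    · have h4 := hL.dp_asc h' h3
      omega

/-- the main property of the hyperedges of `Fh` -/
theorem fixP3 (hX : LX X kd m) (hL : Lv2 X kd m lv dp ds an o) (hF : FixC X kd m FX) :
    FixP3 X kd m dp (Fh X kd ds FX) := by
  classical
  refine ⟨fun e p he hp h hf => ⟨hF.pt e p he hp h hf.1, fun h1 => by omega⟩, ?_⟩
  intro a b p ha hb hp hap hbp fa fb hab da db w
  refine le_trans ?_ w.length_bypass_le_length
  have hpath := w.bypass_isPath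
  generalize w.bypass = v at hpath
  clear w
  by_contra hlt
  push Not at hlt
  obtain ⟨e, g, hN, he0, hek⟩ := exists_nb hX v hpath
  obtain ⟨k, hk⟩ : ∃ k, k = v.length := ⟨_, rfl⟩
  rw [← hk] at hN hek hlt
  have hk0 : 0 < k := by
    rcases Nat.eq_zero_or_pos k with h | h
    · exfalso
      subst h
      exact hab (he0.symm.trans hek)
    · exact h
  have hfx := hF.conv p k e g hp hN hlt (by rw [he0]; exact fa.1) (by rw [hek]; exact fb.1)
  have hd0 : ds (g 0) (e 0) := by
    by_contra h
    have t := (hN 0 hk0).1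
    refine fa.2 ha (g 0) t.1 ?_ ?_ (hfx 0 hk0)
    · rw [← he0]; exact t.ge
    · rw [← he0]; exact h
  have hdk : ds (g (k - 1)) (e k) := by
    by_contra h
    have t := (hN (k - 1) (by omega)).2.1
    rw [show k - 1 + 1 = k by omega] at t
    refine fb.2 hb (g (k - 1)) t.1 ?_ ?_ (hfx (k - 1) (by omega))
    · rw [← hek]; exact t.ge
    · rw [← hek]; exact h
  -- a chamber with two descending hyperedges
  obtain ⟨i, hi, h1, h2⟩ : ∃ i, i < k ∧ ds (g i) (e i) ∧ ds (g i) (e (i + 1)) := by
    by_contra hcon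
    push Not at hcon
    have key : ∀ i, i < k → ds (g i) (e i) := by
      intro i
      induction i with
      | zero => exact fun _ => hd0
      | succ i ih =>
        intro hi
        have h3 := ih (by omega)
        have h4 := hcon i (by omega) h3
        by_contra h5
        obtain ⟨t1, t2, t3, t4⟩ := hN i (by omega)
        obtain ⟨t5, t6, t7, t8⟩ := hN (i + 1) hi
        exact t4 hi (hL.gate_u _ _ _ t2.1 t5.1 t2.2.1 t2.ge t5.ge h4 h5)
    have h3 := hcon (k - 1) (by omega) (key _ (by omega))
    rw [show k - 1 + 1 = k by omega] at h3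
    exact h3 hdk
  obtain ⟨t1, t2, t3, -⟩ := hN i hi
  have h3 := hL.near hX t1 t2 h1 h2 t3
  have h4 := hL.dp_ds t1 h1
  have h5 := hL.dp_ds t2 h2
  have up : ∀ j, j ≤ k → dp (e j) p ≤ dp a p + j := by
    intro j
    induction j with
    | zero =>
      intro _
      rw [he0]
      omega
    | succ j ih =>
      intro hj
      obtain ⟨s1, s2, -, -⟩ := hN j (by omega)
      have := dp_step hL s1 s2
      have := ih (by omega)
      omega
  have dn : ∀ j, j ≤ k → dp (e (k - j)) p ≤ dp b p + j := by
    intro j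
    induction j with
    | zero =>
      intro _
      rw [Nat.sub_zero, hek]
      omega
    | succ j ih =>
      intro hj
      obtain ⟨s1, s2, -, -⟩ := hN (k - (j + 1)) (by omega)
      rw [show k - (j + 1) + 1 = k - j by omega] at s2
      have := dp_step hL s2 s1
      have := ih (by omega)
      omega
  have h6 := up i (by omega)
  have h7 := dn (k - (i + 1)) (by omega)
  rw [show k - (k - (i + 1)) = i + 1 by omega] at h7
  omega

end Pool.Agent.H52.T3
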