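import Pool.Agent.H52.T3.Fx
import Pool.Agent.H52.T2.Hgt

/-!
# [H52 T3 KG] the graph of the ties and the function `dst`

`KE e p`: the fixed hyperedge `e` and the C-gated point `p` of `e` have the same rank (a tie). `ke_an`: `FixP2.far` and `Lv2.ff`. `ext_an`: `lo`: `an e q ≥ dp e q / m q ≥ 1 / 2`; `q ≠ p` since `2 dp e p < m p`; `sum`.
The height `hk : W → ℝ ×ₗ ℕ`. For a hyperedge `e`: `(an e p, 1)` if `KE e p` with `1 / 2 ≤ an e p` (this `p` is unique by `sum`), otherwise `(0, 1)`. For a point `p`: `(1 - an e p, 0)` if `KE e p` with `an e p < 1 / 2` (this `e` is unique by `ke_an`), otherwise `(1 / 2, 0)`. (`Exists.choose`, `dif_pos`, `dif_neg`; a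
hyperedge is not a point: `kd`.)
`hk_lt`: `KE e p`, `1 / 2 ≤ an e p`: `hk e = (an e p, 1)`; `hk p = (1 - an e' p, 0)` with `e' ≠ e`, so `1 - an e' p = an e p` (`ke_an`), or `hk p = (1 / 2, 0)`. In both cases `hk p < hk e` (`Prod.Lex.toLex_lt_toLex` or `Prod.Lex.lt_iff`).
`lt_hk`: `KE e p`, `an e p < 1 / 2`: `hk p = (1 - an e p, 0)`; `hk e = (an e p', 1)` with `p' ≠ p`, `an e p' < 1 - an e p` (`sum`), or `hk e = (0, 1)`, `0 < 1 - an e p`.
`exists_dst2`: the graph `KG`, `acyclic_of_height'` with `hk`: `h1`: `hk_lt` / `lt_hk`. `h2`: `x` a hyperedge with lower `y`, `z`: `1 / 2 ≤ an x y`, `1 / 2 ≤ an x z` (else `lt_hk` gives `hk x < hk y`), so `y = z` by `sum`. `x` a point: `an y x < 1 / 2`, `an z x < 1 / 2`: `y = z` by `ke_an`.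
`exists_dst` with `E = Ext`: an exit `e` has no lower neighbour in `KG`: its neighbours are `p` with `KE e p`, `an e p < 1 / 2` (`ext_an`), `lt_hk`; `bottom_uniq`.
-/

set_option autoImplicit false

namespace Pool.Agent.H52.T3

open Pool.Agent.H54.CX Pool.Agent.H98.FJ Pool.Agent.H59.DE
open Pool.Agent.H52.T2 (HGr T3 LX Lv2 Fd Cg acyclic_of_height' bottom_uniq exists_dst)

variable {W : Type} {X : Cpx W} {kd : W → ℕ} {m : W → ℕ} {o : W} {lv : W → ℕ} {dp : W → W → ℕ}
  {ds : W → W → Prop} {an : W → W → ℝ} {FX : W → Prop}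

/-- ties -/
structure KE (X : Cpx W) (kd m : W → ℕ) (dp : W → W → ℕ) (FX : W → Prop) (e p : W) : Prop where
  e1 : kd e = 1
  p2 : kd p = 2
  ep : X.Edge e p
  fx : FX e
  cg : Cg X kd dp p
  tie : 2 * dp e p + 1 = m p

/-- exits -/
def Ext (X : Cpx W) (kd m : W → ℕ) (dp : W → W → ℕ) (FX : W → Prop) (e : W) : Prop :=
  kd e = 1 ∧ FX e ∧ ∃ q, kd q = 2 ∧ X.Edge e q ∧ m q ≤ 2 * dp e q

/-- the graph of the ties -/
def KG (X : Cpx W) (kd m : W → ℕ) (dp : W → W → ℕ) (FX : W → Prop) : SimpleGraph W where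
  Adj x y := KE X kd m dp FX x y ∨ KE X kd m dp FX y x
  symm := ⟨fun _ _ h => h.symm⟩
  loopless := ⟨fun x h => by
    rcases h with h | h
    · exact X.ne _ _ h.ep rfl
    · exact X.ne _ _ h.ep rfl⟩

/-- the function `dst` -/
structure Dst (X : Cpx W) (kd m : W → ℕ) (dp : W → W → ℕ) (FX : W → Prop) (dst : W → ℕ) : Prop where
  ne : ∀ e p, KE X kd m dp FX e p → dst e ≠ dst p
  hyp : ∀ e p p', KE X kd m dp FX e p → KE X kd m dp FX e p' → dst p < dst e → dst p' < dst e → p = p'
  pt : ∀ e e' p, KE X kd m dp FX e p → KE X kd m dp FX e' p → dst e < dst p → dst e' < dst p → e = e'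
  ext : ∀ e, Ext X kd m dp FX e → dst e = 0

/-- the angles of two ties at a point -/
theorem ke_an (hX : LX X kd m) (hL : Lv2 X kd m lv dp ds an o) (hF : FixP3 X kd m dp FX) {e e' p : W}
    (h : KE X kd m dp FX e p) (h' : KE X kd m dp FX e' p) (hne : e ≠ e') : an e p + an e' p = 1 :=
  (hL.ff hX h.e1 h'.e1 h.p2 h.ep h'.ep
    (hF.far e e' p h.e1 h'.e1 h.p2 h.ep h'.ep h.fx h'.fx hne h.tie.le h'.tie.le) h.tie.le h'.tie.le).2.2.2

theorem ext_an (hX : LX X kd m) (hL : Lv2 X kd m lv dp ds an o) {e p : W}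
    (h : KE X kd m dp FX e p) (h' : Ext X kd m dp FX e) : an e p < 1 / 2 := by
  obtain ⟨-, -, q, hq, heq, hm⟩ := h'
  have hne : p ≠ q := by
    rintro rfl
    have := h.tie
    omega
  have h1 := hL.lo e q h.e1 hq heq
  have h2 := hX.mu q hq
  have h3 := hL.sum e p q h.e1 h.p2 hq h.ep heq hne
  have h4 : (0 : ℝ) < m q := by
    have : (2 : ℝ) ≤ m q := by exact_mod_cast h2
    linarith
  have h5 : (1 / 2 : ℝ) ≤ dp e q / m q := by
    rw [le_div_iff₀ h4]
    have : (m q : ℝ) ≤ 2 * dp e q := by exact_mod_cast hm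
    linarith
  linarith

open Classical in
/-- the height of a vertex of the graph of the ties -/
noncomputable def hk (X : Cpx W) (kd m : W → ℕ) (dp : W → W → ℕ) (FX : W → Prop) (an : W → W → ℝ) (x : W) :
    ℝ ×ₗ ℕ :=
  if kd x = 1 then
    (if h : ∃ p, KE X kd m dp FX x p ∧ 1 / 2 ≤ an x p then toLex (an x h.choose, 1) else toLex (0, 1))
  else (if h : ∃ e, KE X kd m dp FX e x ∧ an e x < 1 / 2 then toLex (1 - an h.choose x, 0) else toLex (1 / 2, 0))

private theorem hk_e1 (hL : Lv2 X kd m lv dp ds an o) {e p : W}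
    (h : KE X kd m dp FX e p) (h1 : 1 / 2 ≤ an e p) :
    hk X kd m dp FX an e = toLex (an e p, 1) := by
  have hex : ∃ p, KE X kd m dp FX e p ∧ 1 / 2 ≤ an e p := ⟨p, h, h1⟩
  unfold hk
  rw [if_pos h.e1, dif_pos hex]
  obtain ⟨h2, h3⟩ := hex.choose_spec
  have h4 : hex.choose = p := by
    by_contra hne
    have := hL.sum e _ p h.e1 h2.p2 h.p2 h2.ep h.ep hne
    linarith
  rw [h4]

private theorem hk_p1 (hX : LX X kd m) (hL : Lv2 X kd m lv dp ds an o) (hF : FixP3 X kd m dp FX) {e p : W}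
    (h : KE X kd m dp FX e p) (h1 : an e p < 1 / 2) :
    hk X kd m dp FX an p = toLex (1 - an e p, 0) := by
  have hex : ∃ e, KE X kd m dp FX e p ∧ an e p < 1 / 2 := ⟨e, h, h1⟩
  unfold hk
  rw [if_neg (by rw [h.p2]; omega), dif_pos hex]
  obtain ⟨h2, h3⟩ := hex.choose_spec
  have h4 : hex.choose = e := by
    by_contra hne
    have := ke_an hX hL hF h2 h hne
    linarith
  rw [h4]

theorem hk_lt (hX : LX X kd m) (hL : Lv2 X kd m lv dp ds an o) (hF : FixP3 X kd m dp FX) {e p : W}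
    (h : KE X kd m dp FX e p) (h1 : 1 / 2 ≤ an e p) :
    hk X kd m dp FX an p < hk X kd m dp FX an e := by
  rw [hk_e1 hL h h1]
  by_cases hex : ∃ e', KE X kd m dp FX e' p ∧ an e' p < 1 / 2
  · obtain ⟨e', h2, h3⟩ := hex
    rw [hk_p1 hX hL hF h2 h3, Prod.Lex.toLex_lt_toLex]
    right
    have hne : e ≠ e' := by
      rintro rfl
      linarith
    have := ke_an hX hL hF h h2 hne
    exact ⟨by simp only; linarith, Nat.zero_lt_one⟩
  · have h2 : hk X kd m dp FX an p = toLex (1 / 2, 0) := by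
      unfold hk
      rw [if_neg (by rw [h.p2]; omega), dif_neg hex]
    rw [h2, Prod.Lex.toLex_lt_toLex]
    rcases lt_or_eq_of_le h1 with h3 | h3
    · exact Or.inl h3
    · exact Or.inr ⟨h3, Nat.zero_lt_one⟩

theorem lt_hk (hX : LX X kd m) (hL : Lv2 X kd m lv dp ds an o) (hF : FixP3 X kd m dp FX) {e p : W}
    (h : KE X kd m dp FX e p) (h1 : an e p < 1 / 2) :
    hk X kd m dp FX an e < hk X kd m dp FX an p := by
  rw [hk_p1 hX hL hF h h1]
  by_cases hex : ∃ p', KE X kd m dp FX e p' ∧ 1 / 2 ≤ an e p'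
  · obtain ⟨p', h2, h3⟩ := hex
    rw [hk_e1 hL h2 h3, Prod.Lex.toLex_lt_toLex]
    left
    have hne : p ≠ p' := by
      rintro rfl
      linarith
    have := hL.sum e p p' h.e1 h.p2 h2.p2 h.ep h2.ep hne
    simp only
    linarith
  · have h2 : hk X kd m dp FX an e = toLex (0, 1) := by
      unfold hk
      rw [if_pos h.e1, dif_neg hex]
    rw [h2, Prod.Lex.toLex_lt_toLex]
    left
    simp only
    linarith

theorem exists_dst2 (hX : LX X kd m) (hL : Lv2 X kd m lv dp ds an o) (hF : FixP3 X kd m dp FX) :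
    ∃ dst : W → ℕ, Dst X kd m dp FX dst := by
  have hor : ∀ e p, KE X kd m dp FX e p → 1 / 2 ≤ an e p ∨ an e p < 1 / 2 := fun e p _ => le_or_gt _ _
  have h1 : ∀ x y, (KG X kd m dp FX).Adj x y → hk X kd m dp FX an x ≠ hk X kd m dp FX an y := by
    intro x y hxy
    rcases hxy with h | h
    · rcases hor _ _ h with h2 | h2
      · exact (hk_lt hX hL hF h h2).ne'
      · exact (lt_hk hX hL hF h h2).ne
    · rcases hor _ _ h with h2 | h2
      · exact (hk_lt hX hL hF h h2).ne
      · exact (lt_hk hX hL hF h h2).ne'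
  have h2 : ∀ x y z, (KG X kd m dp FX).Adj x y → (KG X kd m dp FX).Adj x z →
      hk X kd m dp FX an y < hk X kd m dp FX an x → hk X kd m dp FX an z < hk X kd m dp FX an x →
      y = z := by
    intro x y z hxy hxz hy hz
    by_contra hne
    rcases hxy with h | h
    · rcases hxz with h' | h'
      · have a1 : 1 / 2 ≤ an x y := by
          rcases hor _ _ h with a | a
          · exact a
          · exact absurd (lt_hk hX hL hF h a) (not_lt.2 hy.le)
        have a2 : 1 / 2 ≤ an x z := by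
          rcases hor _ _ h' with a | a
          · exact a
          · exact absurd (lt_hk hX hL hF h' a) (not_lt.2 hz.le)
        have := hL.sum x y z h.e1 h.p2 h'.p2 h.ep h'.ep hne
        linarith
      · have a1 := h.e1
        have a2 := h'.p2
        omega
    · rcases hxz with h' | h'
      · have a1 := h'.e1
        have a2 := h.p2
        omega
      · have a1 : an y x < 1 / 2 := by
          rcases hor _ _ h with a | a
          · exact absurd (hk_lt hX hL hF h a) (not_lt.2 hy.le)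
          · exact a
        have a2 : an z x < 1 / 2 := by
          rcases hor _ _ h' with a | a
          · exact absurd (hk_lt hX hL hF h' a) (not_lt.2 hz.le)
          · exact a
        have := ke_an hX hL hF h h' hne
        linarith
  have hb : ∀ x, Ext X kd m dp FX x → ∀ z, (KG X kd m dp FX).Adj x z →
      hk X kd m dp FX an x < hk X kd m dp FX an z := by
    intro x hx z hxz
    rcases hxz with h | h
    · exact lt_hk hX hL hF h (ext_an hX hL h hx)
    · have a1 := hx.1
      have a2 := h.p2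
      omega
  obtain ⟨d, d1, d2, d3⟩ := exists_dst (acyclic_of_height' _ _ h1 h2) (Ext X kd m dp FX)
    (fun x y hx hy hr => bottom_uniq _ _ h1 h2 hr (hb x hx) (hb y hy))
  exact ⟨d, ⟨fun e p h => d1 e p (Or.inl h), fun e p p' h h' => d2 e p p' (Or.inl h) (Or.inl h'),
    fun e e' p h h' => d2 p e e' (Or.inr h) (Or.inr h'), d3⟩⟩

end Pool.Agent.H52.T3
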