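import Pool.Agent.H52.T3.NM
import Pool.Agent.H54.DD.NM
import Pool.Agent.H54.AR2.Main

/-!
# The theorem on typed complexes with labels, with stabilised chambers and local homomorphisms

A group `P` which acts on a simply connected typed complex with bounded labels, such that every chamber has finitely many
neighbours, is in the class if for every finite set of vertices there is a homomorphism to a group in the class which is
injective on the stabilisers of the vertices of the finite set.
-/

set_option autoImplicit false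

namespace Pool.Agent.H52.T3

open Pool.Agent.H98.FJ Pool.Agent.H54.CX Pool.Agent.H54.CX.CV Pool.Agent.H54.DD Pool.Agent.H52.T2
open Pool.Agent.H54.AR (sat sat_finite cov_cc finCell_cov)
open Pool.Agent.H54.AR2 (Bdd)

variable {C : (G : Type) → [Group G] → Prop}

theorem full3_of {P W : Type} [Group P] [MulAction P W] {X : Cpx W} {N : Subgroup P}
    (h : FullP X N) : Full3 X N :=
  fun x y he n hn h1 h2 n' h3 => h x y he n n.2 h1 h2 (fun h4 => hn (Subtype.ext h4)) n' n'.2 h3

/-- cocompact actions with a homomorphism to the integers which is injective on the stabilisers -/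
theorem of_cocompact (hC : Inherits C) (hE : Extension C) (h2 : Cat2 C) {P W T : Type}
    [Group P] [MulAction P W] {X : Cpx W} {kd : W → ℕ} {τ : W → T} {μ : T → ℕ}
    (hX : TA2 P X kd τ μ) (hb : Bdd kd τ μ) (hcc : X.Cocompact P) (h : P →* Multiplicative ℤ)
    (hh : StabInj W h) : C P := by
  obtain ⟨K, hK⟩ := hb
  obtain ⟨M, hM, hcl, hfull⟩ := Pool.Agent.H54.AR.exists_MK (4 * K) hX.act.inv hcc h hh
  have hK' : ∀ p, kd p = 2 → 4 * μ (τ p) ≤ 4 * K := fun p hp => Nat.mul_le_mul_left 4 (hK p hp)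
  have hgen : NM W h M ≤ Subgroup.closure {n : P | n ∈ NM W h M ∧ ∃ v : W, n • v = v} := by
    refine (Subgroup.closure_le _).2 ?_
    rintro g ⟨⟨v, hv⟩, hd⟩
    exact Subgroup.subset_closure ⟨mem_NM h M hv hd, v, hv⟩
  have hquo : C (P ⧸ NM W h M) :=
    tquo_mem h2 hX.tc hX.act hX.sc hcc h M hM (fun v g => mem_NM h M) hgen hK' hcl
  have hN : C (NM W h M) :=
    n_mem3 hC hE hX.tc hX.sc hX.act (NM W h M) hK' hcl (full3_of hfull) hgen hC.int
      (h.comp (NM W h M).subtype) (fun v g hv hg => Subtype.ext (hh v g.1 hv hg))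
  refine trick hC hE h2 hX h hh M hM (NM W h M) ?_ hquo hN
  rintro v g hv ⟨k, hk⟩
  exact mem_NM h M hv ⟨k, hk⟩

theorem of_int (hC : Inherits C) (hE : Extension C) (h2 : Cat2 C) {P W T : Type}
    [Group P] [MulAction P W] {X : Cpx W} {kd : W → ℕ} {τ : W → T} {μ : T → ℕ}
    (hX : TA2 P X kd τ μ) (hb : Bdd kd τ μ) (hfin : Pool.Agent.H59.DE.FinCell X kd)
    (h : P →* Multiplicative ℤ) (hh : StabInj W h) : C P := by
  obtain ⟨x₀⟩ := hX.sc.nonempty
  exact of_gam hC hX x₀ (fun F => of_cocompact hC hE h2 (cov_ta hX _ x₀)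
    (hb.imp fun K hK p hp => hK (CV.en p) hp)
    (cov_cc hX.act.inv _ (sat_finite hfin F.finite_toSet) x₀) _
    (cov_stab hX.act.inv _ x₀ h (fun v _ g h1 h2 => hh v g h1 h2)))

/-- the preimage of a cyclic subgroup -/
theorem of_zpowers (hC : Inherits C) (hE : Extension C) (h2 : Cat2 C) {G Q W T : Type}
    [Group G] [Group Q] [MulAction G W] {X : Cpx W} {kd : W → ℕ} {τ : W → T} {μ : T → ℕ}
    (hX : TA2 G X kd τ μ) (hb : Bdd kd τ μ)
    (hfin : Pool.Agent.H59.DE.FinCell X kd) (f : G →* Q) (hf : StabInj W f) (u : Q) :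
    C ((Subgroup.zpowers u).comap f) := by
  let f' : (Subgroup.zpowers u).comap f →* Subgroup.zpowers u :=
    { toFun := fun x => ⟨f x.1, x.2⟩
      map_one' := Subtype.ext (map_one f)
      map_mul' := fun x y => Subtype.ext (map_mul f x.1 y.1) }
  have hf' : ∀ x, f' x = 1 → f x.1 = 1 := fun x hx => congrArg Subtype.val hx
  by_cases hu : IsOfFinOrder u
  · have hfin : Finite (Subgroup.zpowers u) := (finite_zpowers.2 hu).to_subtype
    refine of_proper hC h2 (hX.sub _) ?_
    intro v
    refine Finite.of_injective (fun x => f' x.1) ?_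
    intro x y hxy
    have h3 : f' (x.1 * y.1⁻¹) = 1 := by
      rw [map_mul, map_inv]
      exact mul_inv_eq_one.2 hxy
    have h4 : (x * y⁻¹).1.1 = 1 := hf v _ (x * y⁻¹).2 (hf' _ h3)
    have h5 : x * y⁻¹ = 1 := Subtype.ext (Subtype.ext h4)
    exact mul_inv_eq_one.1 h5
  · have hinj : Function.Injective (zpowersHom Q u) := by
      intro a b hab
      have h3 := injective_zpow_iff_not_isOfFinOrder.2 hu hab
      exact h3
    have hr : ∀ q, q ∈ Subgroup.zpowers u → q ∈ (zpowersHom Q u).range := by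
      intro q hq
      obtain ⟨n, rfl⟩ := Subgroup.mem_zpowers_iff.1 hq
      exact ⟨Multiplicative.ofAdd n, rfl⟩
    let e := MonoidHom.ofInjective hinj
    let h : (Subgroup.zpowers u).comap f →* Multiplicative ℤ :=
      e.symm.toMonoidHom.comp
        { toFun := fun x => ⟨f x.1, hr _ x.2⟩
          map_one' := Subtype.ext (map_one f)
          map_mul' := fun x y => Subtype.ext (map_mul f x.1 y.1) }
    refine of_int hC hE h2 (hX.sub _) hb hfin h ?_
    intro v x hx hx1
    have h3 : (⟨f x.1, hr _ x.2⟩ : (zpowersHom Q u).range) = 1 :=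
      (MulEquiv.map_eq_one_iff e.symm).1 hx1
    exact Subtype.ext (hf v _ hx (congrArg Subtype.val h3))

/-- actions with a homomorphism which is injective on all stabilisers -/
theorem tc_main3 (hC : Inherits C) (hE : Extension C) (h2 : Cat2 C) {G Q W T : Type}
    [Group G] [Group Q] [MulAction G W] {X : Cpx W} {kd : W → ℕ} {τ : W → T} {μ : T → ℕ}
    (hT : TC2 X kd τ μ) (hb : Bdd kd τ μ) (hsc : X.SC) (ha : TA0 X τ G)
    (hfin : Pool.Agent.H59.DE.FinCell X kd) (hQ : C Q) (f : G →* Q) (hf : StabInj W f) : C G :=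
  ext_zpowers hC hE f hQ (fun u => of_zpowers hC hE h2 ⟨hT, hsc, ha⟩ hb hfin f hf u)

/-- **Theorem TL.** Actions on typed complexes with bounded labels: the stabilisers of the chambers may be nontrivial, and
the homomorphism may depend on the finite set of the vertices. -/
theorem TL (hC : Inherits C) (hE : Extension C) (h2 : Cat2 C) {P W T : Type} [Group P]
    [MulAction P W] {X : Cpx W} {kd : W → ℕ} {τ : W → T} {μ : T → ℕ} (hT : TC2 X kd τ μ)
    (hb : Bdd kd τ μ) (hsc : X.SC) (ha : TA0 X τ P) (hfin : Pool.Agent.H59.DE.FinCell X kd)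
    (hloc : ∀ F : Finset W, ∃ (Q : Type) (_ : Group Q) (f : P →* Q), C Q ∧
      ∀ v ∈ F, ∀ g : P, g • v = v → f g = 1 → g = 1) : C P := by
  classical
  obtain ⟨x₀⟩ := hsc.nonempty
  have hX : TA2 P X kd τ μ := ⟨hT, hsc, ha⟩
  refine of_gam hC hX x₀ (fun F => ?_)
  have hsf := sat_finite hfin F.finite_toSet
  obtain ⟨Q, _, f, hQ, hf⟩ := hloc (insert x₀ hsf.toFinset)
  have hc := cov_ta hX (F : Set W) x₀
  refine tc_main3 hC hE h2 hc.tc (hb.imp fun K hK p hp => hK (CV.en p) hp) hc.sc hc.act
    (finCell_cov ?_ x₀) hQ _ (cov_stab hX.act.inv _ x₀ f ?_)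
  · intro c hc
    exact (hfin c hc).subset fun x hx => hx.1
  · intro v hv g h1 h3
    refine hf v ?_ g h1 h3
    rw [Finset.mem_insert, Set.Finite.mem_toFinset]
    exact hv

end Pool.Agent.H52.T3
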