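import Pool.Agent.H52.T3.Fix
import Pool.Agent.H52.T3.Trick
import Pool.Agent.H52.FR.Main
import Pool.Agent.H34.RT.Tree

/-!
# The kernel acts on a tree: typed complexes with fixed chambers
-/

set_option autoImplicit false

namespace Pool.Agent.H52.T3

open Pool.Agent.H98.FJ Pool.Agent.H54.CX Pool.Agent.H93.TR Pool.Agent.H54.DD Pool.Agent.H52.T2
open Pool.Agent.H59.DE (Par Sh)
open Pool.Agent.H52.FR (IsQuo FXq fx_iff edge_of_sc)
open Pool.Agent.H54.AR (CLK)
open Pool.Agent.H34.RT (Sh0)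

section sh

variable {W U T : Type} {X : Cpx W} {kd : W → ℕ} {τ : W → T} {μ : T → ℕ} {Y : Cpx U} {kd' : U → ℕ}
  {τ' : U → T} {q : W → U} {N : Type} [Group N] [MulAction N W]

theorem sh_of_rooted3 (hT : TC2 X kd τ μ) (ha : TA0 X τ N) (hfull : Full3 X N)
    (hq : IsQuo X kd τ Y kd' τ' q N) {α : Type} [LinearOrder α] {R : U → α} {δ : U → U → ℕ}
    (hR : Rooted3 Y kd' (FXq q N) R δ) :
    Sh0 X N (fun x => R (q x)) (fun x y => δ (q x) (q y)) := by
  have hqn : ∀ (n : N) (x : W), q (n • x) = q x := fun n x => ((hq.orb x (n • x)).2 ⟨n, rfl⟩).symm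
  have hE : ∀ x y, X.Edge x y → Y.Edge (q x) (q y) := fun x y h => (hq.edge _ _).2 ⟨x, y, h, rfl, rfl⟩
  have hTr : ∀ x y z, X.Tri x y z → Y.Tri (q x) (q y) (q z) := fun x y z h =>
    (hq.tri _ _ _).2 ⟨x, y, z, h, rfl, rfl, rfl⟩
  refine
    { rk_ne := fun x y h => hR.rk _ _ (hE x y h)
      rk_inv := fun n x => by
        show R (q (n • x)) = R (q x)
        rw [hqn]
      dp_inv := fun n x y => by
        show δ (q (n • x)) (q (n • y)) = δ (q x) (q y)
        rw [hqn, hqn]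
      dp_ne := fun x y z h h1 h2 => hR.ne _ _ _ (hTr x y z h) h1 h2
      dp_uniq := ?_ }
  intro x y z z' hz hz' hy1 hz1 hz1' hd hd'
  have h1 : q z = q z' := hR.uniq _ _ _ _ (hTr _ _ _ hz) (hTr _ _ _ hz') hy1 hz1 hz1' hd hd'
  obtain ⟨n, rfl⟩ := (hq.orb z z').1 h1
  have hxy : X.Edge x y := X.edge _ _ _ hz
  have hyz : X.Edge y z := X.edge _ _ _ (X.rot _ _ _ hz)
  have hzx : X.Edge z x := X.edge _ _ _ (X.rot _ _ _ (X.rot _ _ _ hz))
  have hyz' : X.Edge y (n • z) := X.edge _ _ _ (X.rot _ _ _ hz')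
  have hzx' : X.Edge (n • z) x := X.edge _ _ _ (X.rot _ _ _ (X.rot _ _ _ hz'))
  by_cases hx0 : kd x = 0
  · exact (fix_cell2 hT ha hx0 (X.symm _ _ hzx) (X.symm _ _ hzx')).symm
  by_cases hy0 : kd y = 0
  · exact (fix_cell2 hT ha hy0 hyz hyz').symm
  have hz0 : kd z = 0 := by
    have e1 := hT.kd_le x
    have e2 := hT.kd_le y
    have e3 := hT.kd_le z
    have e4 := hT.kd_ne _ _ hxy
    have e5 := hT.kd_ne _ _ hyz
    have e6 := hT.kd_ne _ _ hzx
    omega
  have hz0' : kd (n • z) = 0 := by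
    rw [hT.kd_τ _ _ (ha.type n z)]
    exact hz0
  by_cases hn : n = 1
  · rw [hn, one_smul]
  have hzx2 : X.Edge (n • z) (n • x) := ha.inv.edge n _ _ hzx
  have hzy2 : X.Edge (n • z) (n • y) := ha.inv.edge n _ _ (X.symm _ _ hyz)
  have hfx : n • x = x := fix_cell2 hT ha hz0' hzx' hzx2
  have hfy : n • y = y := fix_cell2 hT ha hz0' (X.symm _ _ hyz') hzy2
  have hf : FXq q N (q z) := hR.fx _ _ _ (hTr _ _ _ hz) hy1 hz1 hd ((fx_iff hq).2 ⟨n, hn, hfx⟩)
    ((fx_iff hq).2 ⟨n, hn, hfy⟩) (by rw [hq.kd]; exact hz0)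
  obtain ⟨n', hn', hfz⟩ := (fx_iff hq).1 hf
  have h2 := ha.inv.edge n' _ _ hzx
  rw [hfz] at h2
  have h3 : n' • x = x := fix_cell2 hT ha hz0 hzx h2
  exact (hfull x z (X.symm _ _ hzx) n' hn' h3 hfz n hfx).symm

end sh

variable {W T P : Type} {X : Cpx W} {kd : W → ℕ} {τ : W → T} {μ : T → ℕ} [Group P] [MulAction P W]

theorem TA0.sub (ha : TA0 X τ P) (K : Subgroup P) : TA0 X τ K where
  inv :=
    { edge := fun g a b e => ha.inv.edge (g : P) a b e
      tri := fun g a b c e => ha.inv.tri (g : P) a b c e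
      len := fun g a b e => ha.inv.len (g : P) a b e }
  type := fun g x => ha.type (g : P) x

theorem n_mem3 {C : (G : Type) → [Group G] → Prop} (hC : Inherits C)
    (hE : Extension C) {Q : Type} [Group Q] (hT : TC2 X kd τ μ) (hsc : X.SC) (ha : TA0 X τ P)
    (N : Subgroup P) {K : ℕ} (hK : ∀ p, kd p = 2 → 4 * μ (τ p) ≤ K) (hcl : CLK K X N)
    (hfull : Full3 X N)
    (hgen : N ≤ Subgroup.closure {n : P | n ∈ N ∧ ∃ v : W, n • v = v}) (hQ : C Q) (f : N →* Q)
    (hf : StabInj W f) : C N := by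
  by_cases hne : ∃ a b, X.Edge a b
  · have hTY : TC2 (tquo hT ha N) (qkd hT ha N) (qτ ha N) μ := tquo_tc2 hK hcl
    have hscY : (tquo hT ha N).SC := tquo_sc hsc hgen
    have hiq := isQuo_tquo hT ha N
    have haN := ha.sub N
    have hedge : ∀ x, ∃ y, (tquo hT ha N).Edge x y := by
      obtain ⟨a, b, h⟩ := hne
      intro x
      rcases edge_of_sc hscY (orb N a) x with h1 | h1
      · exact ⟨orb N b, a, b, h1.symm, rfl, h⟩
      · exact h1
    obtain ⟨R, δ, hR'⟩ := exists_rooted3 hTY hscY (fixC hT haN hfull hiq) hedge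
    exact Pool.Agent.H34.RT.mem_of_sh hC hE haN.inv hsc (sh_of_rooted3 hT haN hfull hiq hR') hQ f hf
  · have hsub : ∀ x y : W, x = y := by
      intro x y
      rcases edge_of_sc hsc y x with h | ⟨z, h⟩
      · exact h
      · exact (hne ⟨x, z, h⟩).elim
    obtain ⟨v⟩ := hsc.nonempty
    refine hC.of_injective f ?_ hQ
    rw [injective_iff_map_eq_one]
    exact fun n hn => hf v n (hsub _ _) hn

end Pool.Agent.H52.T3
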