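import Pool.Agent.H52.T3.Defs
import Pool.Agent.H54.AR.Tq

/-!
# Quotients of typed complexes with labels
-/

set_option autoImplicit false

namespace Pool.Agent.H52.T3

open Pool.Agent.H98.FJ Pool.Agent.H54.CX Pool.Agent.H93.TR Pool.Agent.H54.DD Pool.Agent.H54.AR
  Pool.Agent.H52.T2

variable {P W T : Type} [Group P] [MulAction P W] {X : Cpx W} {kd : W → ℕ} {τ : W → T} {μ : T → ℕ}

section basic

variable (hT : TC2 X kd τ μ)
include hT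

/-- the kinds of the vertices of a triangle are different -/
theorem tri_kd {a b c : W} (h : X.Tri a b c) : kd a ≠ kd b ∧ kd b ≠ kd c ∧ kd a ≠ kd c :=
  ⟨hT.kd_ne _ _ (X.edge _ _ _ h), hT.kd_ne _ _ (X.edge _ _ _ (X.rot _ _ _ h)),
    (hT.kd_ne _ _ (X.edge _ _ _ (X.rot _ _ _ (X.rot _ _ _ h)))).symm⟩

/-- an edge is an edge of a triangle with a chamber -/
theorem exists_cell {a b : W} (h : X.Edge a b) :
    ∃ c, kd c = 0 ∧ (c = a ∨ X.Edge c a) ∧ (c = b ∨ X.Edge c b) := by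
  have h1 := hT.kd_ne _ _ h
  have h2 := hT.kd_le a
  have h3 := hT.kd_le b
  by_cases h4 : kd a = 0
  · exact ⟨a, h4, Or.inl rfl, Or.inr h⟩
  by_cases h5 : kd b = 0
  · exact ⟨b, h5, Or.inr (X.symm _ _ h), Or.inl rfl⟩
  rcases (by omega : (kd a = 1 ∧ kd b = 2) ∨ (kd a = 2 ∧ kd b = 1)) with ⟨h6, h7⟩ | ⟨h6, h7⟩
  · obtain ⟨c, hc, hca⟩ := hT.cell a b h6 h7 h
    have h8 := hT.fill c a b hc h6 h7 hca h
    exact ⟨c, hc, Or.inr hca, Or.inr (X.symm _ _ (X.edge _ _ _ (X.rot _ _ _ (X.rot _ _ _ h8))))⟩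
  · obtain ⟨c, hc, hcb⟩ := hT.cell b a h7 h6 (X.symm _ _ h)
    have h8 := hT.fill c b a hc h7 h6 hcb (X.symm _ _ h)
    exact ⟨c, hc, Or.inr (X.symm _ _ (X.edge _ _ _ (X.rot _ _ _ (X.rot _ _ _ h8)))), Or.inr hcb⟩

end basic

/-- the quotients of typed complexes are simplicial -/
theorem simple (hT : TC2 X kd τ μ) (ha : TA0 X τ P) (N : Subgroup P) :
    Simple X N := by
  constructor
  · intro a b h n _ e
    have h1 := hT.kd_ne _ _ h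
    have h2 := hT.kd_τ _ _ (ha.type n a)
    rw [e] at h2
    exact h1 h2.symm
  · intro x a b hxa hxb n hn e
    have hτ : τ a = τ b := by rw [← e, ha.type]
    have hkd : kd a = kd b := hT.kd_τ _ _ hτ
    have hkx : kd (n • x) = kd x := hT.kd_τ _ _ (ha.type n x)
    have hka := hT.kd_ne _ _ hxa
    have hlx := hT.kd_le x
    have hla := hT.kd_le a
    have hnx : X.Edge (n • x) b := by rw [← e]; exact ha.inv.edge n _ _ hxa
    by_cases hx0 : kd x = 0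
    · exact ⟨1, N.one_mem, one_smul _ _, by rw [one_smul]; exact hT.inj x a b hx0 hxa hxb hτ⟩
    by_cases ha0 : kd a = 0
    · exact ⟨n, hn, hT.inj b _ _ (by rw [← hkd, ha0]) (X.symm _ _ hnx) (X.symm _ _ hxb)
        (ha.type n x), e⟩
    rcases (by omega : (kd x = 1 ∧ kd a = 2) ∨ (kd x = 2 ∧ kd a = 1)) with ⟨h6, h7⟩ | ⟨h6, h7⟩
    · obtain ⟨c, hc, hcx⟩ := hT.cell x a h6 h7 hxa
      have h8 := hT.fill c x a hc h6 h7 hcx hxa
      have h9 := hT.fill c x b hc h6 (by rw [← hkd, h7]) hcx hxb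
      refine ⟨1, N.one_mem, one_smul _ _, ?_⟩
      rw [one_smul]
      exact hT.inj c a b hc (X.symm _ _ (X.edge _ _ _ (X.rot _ _ _ (X.rot _ _ _ h8))))
        (X.symm _ _ (X.edge _ _ _ (X.rot _ _ _ (X.rot _ _ _ h9)))) hτ
    · obtain ⟨c, hc, hcb⟩ := hT.cell b x (by rw [← hkd, h7]) h6 (X.symm _ _ hxb)
      have h8 := hT.fill c b x hc (by rw [← hkd, h7]) h6 hcb (X.symm _ _ hxb)
      have h9 := hT.fill c b (n • x) hc (by rw [← hkd, h7]) (by rw [hkx, h6]) hcb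
        (X.symm _ _ hnx)
      exact ⟨n, hn, hT.inj c _ _ hc (X.symm _ _ (X.edge _ _ _ (X.rot _ _ _ (X.rot _ _ _ h9))))
        (X.symm _ _ (X.edge _ _ _ (X.rot _ _ _ (X.rot _ _ _ h8)))) (ha.type n x), e⟩

theorem L2_symm (a b m n : ℕ) : L2 a b m n = L2 b a n m := by
  rcases a with _ | _ | _ | a <;> rcases b with _ | _ | _ | b <;> rfl

/-- the angle at the point -/
noncomputable def th (m : ℕ) : ℝ := Real.pi / (2 * m)

theorem th_pos {m : ℕ} (h : 2 ≤ m) : 0 < th m := by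
  have : (0 : ℝ) < m := by exact_mod_cast (by omega : 0 < m)
  exact div_pos Real.pi_pos (by positivity)

theorem th_le {m : ℕ} (h : 2 ≤ m) : th m ≤ Real.pi / 4 := by
  have h1 : (2 : ℝ) ≤ m := by exact_mod_cast h
  unfold th
  exact div_le_div_of_nonneg_left Real.pi_pos.le (by norm_num) (by linarith)

theorem sin_th_pos {m : ℕ} (h : 2 ≤ m) : 0 < Real.sin (th m) :=
  Real.sin_pos_of_pos_of_lt_pi (th_pos h) (by linarith [th_le h, Real.pi_pos])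

theorem cos_th_pos {m : ℕ} (h : 2 ≤ m) : 0 < Real.cos (th m) :=
  Real.cos_pos_of_mem_Ioo ⟨by linarith [th_pos h, Real.pi_pos], by linarith [th_le h, Real.pi_pos]⟩

theorem Lc_eq (m : ℕ) : Lc m = Real.cos (th m) / Real.sin (th m) := rfl

theorem Ls_eq (m : ℕ) : Ls m = 1 / Real.sin (th m) := rfl

theorem Lc_pos {m : ℕ} (h : 2 ≤ m) : 0 < Lc m := div_pos (cos_th_pos h) (sin_th_pos h)

theorem Ls_pos {m : ℕ} (h : 2 ≤ m) : 0 < Ls m := div_pos one_pos (sin_th_pos h)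

/-- the theorem of Pythagoras -/
theorem Ls_sq {m : ℕ} (h : 2 ≤ m) : Ls m ^ 2 = 1 + Lc m ^ 2 := by
  have h1 := sin_th_pos h
  have h2 := Real.sin_sq_add_cos_sq (th m)
  rw [Lc_eq, Ls_eq, div_pow, div_pow, eq_comm, ← sub_eq_zero]
  field_simp
  nlinarith

theorem Ls_lt {m : ℕ} (h : 2 ≤ m) : Ls m < 1 + Lc m := by
  nlinarith [Ls_sq h, Lc_pos h, Ls_pos h]

theorem one_lt {m : ℕ} (h : 2 ≤ m) : 1 < Lc m + Ls m := by
  nlinarith [Ls_sq h, Lc_pos h, Ls_pos h]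

theorem Lc_lt {m : ℕ} (h : 2 ≤ m) : Lc m < 1 + Ls m := by
  nlinarith [Ls_sq h, Lc_pos h, Ls_pos h]

/-- the labels of two adjacent vertices -/
theorem L2_pos (hT : TC2 X kd τ μ) {a b : W} (h : X.Edge a b) :
    0 < L2 (kd a) (kd b) (μ (τ a)) (μ (τ b)) := by
  have h1 := hT.kd_ne _ _ h
  have h2 := hT.kd_le a
  have h3 := hT.kd_le b
  rcases (by omega : (kd a = 0 ∧ kd b = 1) ∨ (kd a = 1 ∧ kd b = 0) ∨ (kd a = 0 ∧ kd b = 2) ∨
    (kd a = 2 ∧ kd b = 0) ∨ (kd a = 1 ∧ kd b = 2) ∨ (kd a = 2 ∧ kd b = 1)) with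
    ⟨e1, e2⟩ | ⟨e1, e2⟩ | ⟨e1, e2⟩ | ⟨e1, e2⟩ | ⟨e1, e2⟩ | ⟨e1, e2⟩ <;> rw [e1, e2]
  · exact one_pos
  · exact one_pos
  · exact Ls_pos (hT.mu b e2)
  · exact Ls_pos (hT.mu a e1)
  · exact Lc_pos (hT.mu b e2)
  · exact Lc_pos (hT.mu a e1)

theorem L2_lt (hT : TC2 X kd τ μ) {a b c : W} (h : X.Tri a b c) :
    L2 (kd a) (kd c) (μ (τ a)) (μ (τ c)) <
      L2 (kd a) (kd b) (μ (τ a)) (μ (τ b)) + L2 (kd b) (kd c) (μ (τ b)) (μ (τ c)) := by
  obtain ⟨n1, n2, n3⟩ := tri_kd hT h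
  have h1 := hT.kd_le a
  have h2 := hT.kd_le b
  have h3 := hT.kd_le c
  rcases (by omega : (kd a = 0 ∧ kd b = 1 ∧ kd c = 2) ∨ (kd a = 0 ∧ kd b = 2 ∧ kd c = 1) ∨
    (kd a = 1 ∧ kd b = 0 ∧ kd c = 2) ∨ (kd a = 1 ∧ kd b = 2 ∧ kd c = 0) ∨
    (kd a = 2 ∧ kd b = 0 ∧ kd c = 1) ∨ (kd a = 2 ∧ kd b = 1 ∧ kd c = 0)) with
    ⟨e1, e2, e3⟩ | ⟨e1, e2, e3⟩ | ⟨e1, e2, e3⟩ | ⟨e1, e2, e3⟩ | ⟨e1, e2, e3⟩ | ⟨e1, e2, e3⟩ <;>
    rw [e1, e2, e3]
  · exact Ls_lt (hT.mu c e3)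
  · have := one_lt (hT.mu b e2)
    show (1 : ℝ) < Ls _ + Lc _
    linarith
  · exact Lc_lt (hT.mu c e3)
  · exact one_lt (hT.mu b e2)
  · have := Lc_lt (hT.mu a e1)
    show Lc _ < Ls _ + 1
    linarith
  · have := Ls_lt (hT.mu a e1)
    show Ls _ < Lc _ + 1
    linarith

/-- the quotient of a typed complex -/
noncomputable def tquo (hT : TC2 X kd τ μ) (ha : TA0 X τ P) (N : Subgroup P) :
    Cpx (Orb N W) where
  Edge i j := ∃ a b, orb N a = i ∧ orb N b = j ∧ X.Edge a b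
  Tri i j k := ∃ a b c, orb N a = i ∧ orb N b = j ∧ orb N c = k ∧ X.Tri a b c
  len i j := L2 (dsc N kd (fun g x => hT.kd_τ _ _ (ha.type g x)) i)
    (dsc N kd (fun g x => hT.kd_τ _ _ (ha.type g x)) j) (μ (dsc N τ ha.type i))
    (μ (dsc N τ ha.type j))
  ne := by
    rintro i j ⟨a, b, rfl, rfl, h⟩ e
    obtain ⟨n, hn, hn'⟩ := (orb_eq_iff N _ _).1 e
    exact (simple hT ha N).loop _ _ (X.symm _ _ h) n hn hn'
  symm := by
    rintro i j ⟨a, b, ha, hb, h⟩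
    exact ⟨b, a, hb, ha, X.symm _ _ h⟩
  edge := by
    rintro i j k ⟨a, b, c, ha, hb, hc, h⟩
    exact ⟨a, b, ha, hb, X.edge _ _ _ h⟩
  rot := by
    rintro i j k ⟨a, b, c, ha, hb, hc, h⟩
    exact ⟨b, c, a, hb, hc, ha, X.rot _ _ _ h⟩
  swap := by
    rintro i j k ⟨a, b, c, ha, hb, hc, h⟩
    exact ⟨b, a, c, hb, ha, hc, X.swap _ _ _ h⟩
  len_symm := fun _ _ _ => L2_symm _ _ _ _
  pos := by
    rintro i j ⟨a, b, rfl, rfl, h⟩
    exact L2_pos hT h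
  lt := by
    rintro i j k ⟨a, b, c, rfl, rfl, rfl, h⟩
    exact L2_lt hT h

variable {N : Subgroup P} {hT : TC2 X kd τ μ} {ha : TA0 X τ P}

/-- edges of the quotient lift, with a given first vertex -/
theorem edge_lift {a : W} {j : Orb N W} (h : (tquo hT ha N).Edge (orb N a) j) :
    ∃ b, orb N b = j ∧ X.Edge a b := by
  obtain ⟨c, d, hc, hd, h⟩ := h
  obtain ⟨n, hn, hn'⟩ := (orb_eq_iff N a c).1 hc.symm
  refine ⟨n • d, by rw [orb_smul N hn, hd], ?_⟩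
  rw [← hn']
  exact ha.inv.edge n _ _ h

/-- triangles of the quotient lift, with a given first edge -/
theorem tri_lift {a b : W} {k : Orb N W} (hab : X.Edge a b)
    (h : (tquo hT ha N).Tri (orb N a) (orb N b) k) : ∃ c, orb N c = k ∧ X.Tri a b c := by
  obtain ⟨a', b', c', ha', hb, hc, h⟩ := h
  obtain ⟨n, hn, hn'⟩ := (orb_eq_iff N a a').1 ha'.symm
  have h1 : X.Tri a (n • b') (n • c') := by rw [← hn']; exact ha.inv.tri n _ _ _ h
  obtain ⟨m, hm, hm'⟩ := (orb_eq_iff N b (n • b')).1 (by rw [orb_smul N hn, hb])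
  obtain ⟨k, hk, hk1, hk2⟩ := (simple hT ha N).double a (n • b') b (X.edge _ _ _ h1) hab m hm hm'
  refine ⟨k • n • c', by rw [orb_smul N hk, orb_smul N hn, hc], ?_⟩
  have h2 := ha.inv.tri k _ _ _ h1
  rwa [hk1, hk2] at h2

end Pool.Agent.H52.T3
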