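import Pool.Agent.H52.T3.Tq
import Pool.Agent.H54.AR2.Gal
import Pool.Agent.H54.AR.ChM

/-!
# The quotient of a typed complex by a group with the closing property is a typed complex
-/

set_option autoImplicit false

namespace Pool.Agent.H52.T3

open Pool.Agent.H98.FJ Pool.Agent.H54.CX Pool.Agent.H93.TR Pool.Agent.H54.DD Pool.Agent.H54.AR
  Pool.Agent.H52.T2
open Pool.Agent.H54.AR2 (Sq gy_of_sq sq_of_gy gy_pos gy_fst gy_lst gy_map gir')

variable {P W T : Type} [Group P] [MulAction P W] {X : Cpx W} {kd : W → ℕ} {τ : W → T} {μ : T → ℕ}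
  {N : Subgroup P} {hT : TC2 X kd τ μ} {ha : TA0 X τ P}

/-- the kind on the orbits -/
def qkd (hT : TC2 X kd τ μ) (ha : TA0 X τ P) (N : Subgroup P) : Orb N W → ℕ :=
  dsc N kd (fun g x => hT.kd_τ _ _ (ha.type g x))

/-- the type on the orbits -/
def qτ (ha : TA0 X τ P) (N : Subgroup P) : Orb N W → T := dsc N τ ha.type

theorem orb_type (ha : TA0 X τ P) {x y : W} (h : orb N x = orb N y) : τ x = τ y := by
  obtain ⟨n, -, h1⟩ := (orb_eq_iff N _ _).1 h
  rw [← h1, ha.type]

theorem uniq (hT : TC2 X kd τ μ) (ha : TA0 X τ P) {g x y : W} (hg : kd g = 0)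
    (hx : X.Edge g x) (hy : X.Edge g y) (h : orb N x = orb N y) : x = y :=
  hT.inj g x y hg hx hy (orb_type ha h)

/-- triangles lift, with a given first vertex -/
theorem tri_lift1 {a : W} {j k : Orb N W} (h : (tquo hT ha N).Tri (orb N a) j k) :
    ∃ b c, orb N b = j ∧ orb N c = k ∧ X.Tri a b c := by
  obtain ⟨b, hb, hab⟩ := edge_lift ((tquo hT ha N).edge _ _ _ h)
  rw [← hb] at h
  obtain ⟨c, hc, habc⟩ := tri_lift hab h
  exact ⟨b, c, hb, hc, habc⟩

/-- triangles lift, with given first and third vertices -/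
theorem tri_lift13 {g p : W} {e : Orb N W} (hgp : X.Edge g p)
    (h : (tquo hT ha N).Tri (orb N g) e (orb N p)) : ∃ b, orb N b = e ∧ X.Tri g b p := by
  obtain ⟨b, hb, h1⟩ := tri_lift hgp ((tquo hT ha N).swap _ _ _ ((tquo hT ha N).rot _ _ _
    ((tquo hT ha N).rot _ _ _ h)))
  exact ⟨b, hb, X.rot _ _ _ (X.swap _ _ _ h1)⟩

/-- triangles lift, with given second and third vertices -/
theorem tri_lift23 {e p : W} {g : Orb N W} (hep : X.Edge e p)
    (h : (tquo hT ha N).Tri g (orb N e) (orb N p)) : ∃ c, orb N c = g ∧ X.Tri c e p := by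
  obtain ⟨c, hc, h1⟩ := tri_lift hep ((tquo hT ha N).rot _ _ _ h)
  exact ⟨c, hc, X.rot _ _ _ (X.rot _ _ _ h1)⟩

/-- lifts of triangles -/
theorem t3_lift13 {g p : W} {e : Orb N W} (hgp : X.Edge g p)
    (h : T3 (tquo hT ha N) (qkd hT ha N) (orb N g) e (orb N p)) :
    ∃ b, orb N b = e ∧ T3 X kd g b p := by
  obtain ⟨h1, h2, h3, h4⟩ := h
  obtain ⟨b, rfl, hb⟩ := tri_lift13 hgp h4
  exact ⟨b, rfl, h1, h2, h3, hb⟩

theorem t3_lift23 {e p : W} {g : Orb N W} (hep : X.Edge e p)
    (h : T3 (tquo hT ha N) (qkd hT ha N) g (orb N e) (orb N p)) :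
    ∃ c, orb N c = g ∧ T3 X kd c e p := by
  obtain ⟨h1, h2, h3, h4⟩ := h
  obtain ⟨c, rfl, hc⟩ := tri_lift23 hep h4
  exact ⟨c, rfl, h1, h2, h3, hc⟩

/-- translates of triangles -/
theorem t3_smul (hT : TC2 X kd τ μ) (ha : TA0 X τ P) {g e p : W} {n : P} (hn : n • p = p)
    (h : T3 X kd g e p) : T3 X kd (n • g) (n • e) p := by
  obtain ⟨h1, h2, h3, h4⟩ := h
  refine ⟨(hT.kd_τ _ _ (ha.type n g)).trans h1, (hT.kd_τ _ _ (ha.type n e)).trans h2, h3, ?_⟩
  have := ha.inv.tri n _ _ _ h4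
  rwa [hn] at this

/-- galleries lift, with a given point and first chamber -/
theorem sq_lift {p : W} {C H : ℕ → Orb N W} : ∀ n : ℕ,
    Sq (tquo hT ha N) (qkd hT ha N) (orb N p) n C H → ∀ g : W, orb N g = C 0 → X.Edge g p →
    ∃ c h : ℕ → W, c 0 = g ∧ (∀ i, i ≤ n → orb N (c i) = C i) ∧ (∀ i, i < n → orb N (h i) = H i) ∧
      (∀ i, i ≤ n → X.Edge (c i) p) ∧ Sq X kd p n c h := by
  intro n
  induction n with
  | zero =>
    intro _ g hg hgp
    refine ⟨fun _ => g, fun _ => g, rfl, ?_, ?_, fun _ _ => hgp, ?_⟩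
    · intro i hi
      obtain rfl : i = 0 := by omega
      exact hg
    · intro i hi
      omega
    · exact ⟨fun i hi => by omega, fun i hi => by omega, fun i hi => by omega,
        fun i hi => by omega⟩
  | succ n ih =>
    intro hs g hg hgp
    obtain ⟨c, h, h0, h1, h2, h3, h4⟩ := ih ⟨fun i hi => hs.l i (by omega),
      fun i hi => hs.r i (by omega), fun i hi => hs.c i (by omega), fun i hi => hs.h i (by omega)⟩
      g hg hgp
    have a1 := hs.l n (by omega)
    rw [← h1 n le_rfl] at a1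
    obtain ⟨e, he, k1⟩ := t3_lift13 (h3 n le_rfl) a1
    have a2 := hs.r n (by omega)
    rw [← he] at a2
    obtain ⟨g2, hg2, k2⟩ := t3_lift23 (mid k1.2.2.2) a2
    refine ⟨fun i => if i ≤ n then c i else g2, fun i => if i < n then h i else e, ?_, ?_, ?_, ?_,
      ⟨?_, ?_, ?_, ?_⟩⟩
    · simp only [Nat.zero_le, if_true]
      exact h0
    · intro i hi
      by_cases h5 : i ≤ n
      · simp only [if_pos h5]
        exact h1 i h5
      · obtain rfl : i = n + 1 := by omega
        simp only [if_neg h5]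
        exact hg2
    · intro i hi
      by_cases h5 : i < n
      · simp only [if_pos h5]
        exact h2 i h5
      · obtain rfl : i = n := by omega
        simp only [if_neg h5]
        exact he
    · intro i hi
      by_cases h5 : i ≤ n
      · simp only [if_pos h5]
        exact h3 i h5
      · simp only [if_neg h5]
        exact third k2.2.2.2
    · intro i hi
      by_cases h5 : i < n
      · simp only [if_pos h5, if_pos h5.le]
        exact h4.l i h5
      · obtain rfl : i = n := by omega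
        simp only [le_refl, if_true, lt_irrefl, if_false]
        exact k1
    · intro i hi
      by_cases h5 : i < n
      · simp only [if_pos h5, if_pos (show i + 1 ≤ n by omega)]
        exact h4.r i h5
      · obtain rfl : i = n := by omega
        simp only [lt_irrefl, if_false, if_neg (show ¬ i + 1 ≤ i by omega)]
        exact k2
    · intro i hi
      by_cases h5 : i < n
      · simp only [if_pos h5.le, if_pos (show i + 1 ≤ n by omega)]
        exact h4.c i h5
      · obtain rfl : i = n := by omega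
        simp only [le_refl, if_true, if_neg (show ¬ i + 1 ≤ i by omega)]
        intro h6
        apply hs.c i (by omega)
        rw [← h1 i le_rfl, h6, hg2]
    · intro i hi
      by_cases h5 : i + 1 < n
      · simp only [if_pos h5, if_pos (show i < n by omega)]
        exact h4.h i h5
      · obtain rfl : n = i + 1 := by omega
        simp only [lt_irrefl, if_false, if_pos (show i < i + 1 by omega)]
        intro h6
        apply hs.h i (by omega)
        rw [← h2 i (by omega), ← h6, he]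

theorem pow_fix {p : W} {k : P} (hk : k • p = p) (q : ℕ) : k ^ q • p = p := by
  induction q with
  | zero => rw [pow_zero, one_smul]
  | succ q ih => rw [pow_succ, mul_smul, hk, ih]

theorem succ_div_mod {n i : ℕ} (hn : 0 < n) :
    ((i + 1) / n = i / n ∧ (i + 1) % n = i % n + 1 ∧ i % n + 1 < n) ∨
      ((i + 1) / n = i / n + 1 ∧ (i + 1) % n = 0 ∧ i % n + 1 = n) := by
  have h1 := Nat.mod_add_div i n
  have h2 := Nat.mod_lt i hn
  rcases Nat.lt_or_ge (i % n + 1) n with h3 | h3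
  · refine Or.inl ⟨?_, ?_, h3⟩
    · have : i + 1 = (i % n + 1) + n * (i / n) := by omega
      rw [this, Nat.add_mul_div_left _ _ hn, Nat.div_eq_of_lt h3, zero_add]
    · have : i + 1 = (i % n + 1) + n * (i / n) := by omega
      rw [this, Nat.add_mul_mod_self_left, Nat.mod_eq_of_lt h3]
  · have h4 : i % n + 1 = n := by omega
    have h5 : i + 1 = n * (i / n + 1) := by rw [Nat.mul_add, Nat.mul_one]; omega
    refine Or.inr ⟨?_, ?_, h4⟩
    · rw [h5, Nat.mul_div_cancel_left _ hn]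
    · rw [h5, Nat.mul_mod_right]

/-- closed galleries of the quotient -/
theorem quo_gir {K : ℕ} (hK : ∀ p, kd p = 2 → 4 * μ (τ p) ≤ K) (hcl : CLK K X N) {p : W} {n : ℕ}
    {f e g : Orb N W}
    (hG : Gy (tquo hT ha N) (qkd hT ha N) (orb N p) n f e g g) (hfe : f ≠ e) :
    2 * μ (τ p) ≤ n := by
  obtain ⟨g1, e1, hg1, hge⟩ : ∃ g1 e1, orb N g1 = g ∧ X.Tri g1 e1 p := by
    have h1 := gy_fst hG
    have h2 := (tquo hT ha N).rot _ _ _ ((tquo hT ha N).rot _ _ _ h1.2.2.2)
    obtain ⟨b, c, hb, hc, hbc⟩ := tri_lift1 h2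
    exact ⟨b, c, hb, X.rot _ _ _ hbc⟩
  have hp2 : kd p = 2 := (gy_fst hG).2.2.1
  obtain ⟨C, H, hS, B1, B2, B3, B4⟩ := sq_of_gy hG
  have hn := gy_pos hG
  obtain ⟨c, h, b1, b2, b3, b4, hs⟩ := sq_lift n hS g1 (by rw [hg1, B1]) (third hge)
  have hn2 : 2 ≤ n := by
    by_contra h5
    obtain rfl : n = 1 := by omega
    exact hfe (by rw [← B3, ← B4])
  obtain ⟨k', hk', hkk'⟩ := (orb_eq_iff N (c n) (c 0)).1 (by rw [b2 n le_rfl, b2 0 (by omega), B1, B2])
  obtain ⟨k, hk, hkp, hkg⟩ := (simple hT ha N).double p (c 0) (c n)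
    (X.symm _ _ (b4 0 (by omega))) (X.symm _ _ (b4 n le_rfl)) k' hk' hkk'
  by_contra hlt
  push Not at hlt
  -- the walk in the link of the point
  have hy : ∀ i, i < 2 * n → X.Tri p ((fun i => if i % 2 = 0 then c (i / 2) else h (i / 2)) i)
      ((fun i => if i % 2 = 0 then c (i / 2) else h (i / 2)) (i + 1)) := by
    intro i hi
    rcases Nat.even_or_odd' i with ⟨j, rfl | rfl⟩
    · have e1 : (2 * j) % 2 = 0 := by omega
      have e2 : ¬ (2 * j + 1) % 2 = 0 := by omega
      have e3 : 2 * j / 2 = j := by omega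
      have e4 : (2 * j + 1) / 2 = j := by omega
      simp only [e1, e2, e3, e4, if_true, if_false]
      exact X.rot _ _ _ (X.rot _ _ _ (hs.l j (by omega)).2.2.2)
    · have e1 : (2 * j + 1 + 1) % 2 = 0 := by omega
      have e2 : ¬ (2 * j + 1) % 2 = 0 := by omega
      have e3 : (2 * j + 1 + 1) / 2 = j + 1 := by omega
      have e4 : (2 * j + 1) / 2 = j := by omega
      simp only [e1, e2, e3, e4, if_true, if_false]
      exact X.rot _ _ _ (X.rot _ _ _ (X.swap _ _ _ (hs.r j (by omega)).2.2.2))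
  obtain ⟨i, hi, hfix⟩ := hcl p k hk hkp (2 * n)
    (fun i => if i % 2 = 0 then c (i / 2) else h (i / 2))
    (by have := hK p hp2; omega) hy (by
      have e1 : (2 * n) % 2 = 0 := by omega
      have e3 : 2 * n / 2 = n := by omega
      simp only [e1, e3, if_true, Nat.zero_mod, Nat.zero_div]
      exact hkg.symm)
  have hck : ∀ j, j ≤ n → kd (c j) = 0 := by
    intro j hj
    rcases Nat.lt_or_ge j n with h1 | h1
    · exact (hs.l j h1).1
    · have : j = (n - 1) + 1 := by omega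
      rw [this]
      exact (hs.r (n - 1) (by omega)).1
  have hC1 : ∀ i, k ^ ((i + 1) / n) • c ((i + 1) % n) = k ^ (i / n) • c (i % n + 1) := by
    intro i
    rcases succ_div_mod (n := n) (i := i) (by omega) with ⟨q1, q2, q3⟩ | ⟨q1, q2, q3⟩
    · rw [q1, q2]
    · rw [q1, q2, q3, pow_succ, mul_smul, hkg]
  have hPS : ∀ m, Sq X kd p m (fun i => k ^ (i / n) • c (i % n))
      (fun i => k ^ (i / n) • h (i % n)) := by
    intro m
    refine ⟨?_, ?_, ?_, ?_⟩
    · intro i _
      exact t3_smul hT ha (pow_fix hkp _) (hs.l _ (Nat.mod_lt _ (by omega)))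
    · intro i _
      simp only [hC1]
      exact t3_smul hT ha (pow_fix hkp _) (hs.r _ (Nat.mod_lt _ (by omega)))
    · intro i _
      simp only [hC1]
      exact fun h9 => hs.c _ (Nat.mod_lt _ (by omega)) (smul_left_cancel _ h9)
    · intro i _
      rcases succ_div_mod (n := n) (i := i) (by omega) with ⟨q1, q2, q3⟩ | ⟨q1, q2, q3⟩
      · simp only [q1, q2]
        exact fun h9 => hs.h _ q3 (smul_left_cancel _ h9)
      · simp only [q1, q2, pow_succ, mul_smul]
        intro h9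
        have h10 := smul_left_cancel _ h9
        apply hfe
        have h11 : orb N (k • h 0) = orb N (h (i % n)) := by rw [h10]
        rw [orb_smul N hk, b3 0 (by omega), b3 _ (by omega), show i % n = n - 1 by omega] at h11
        rw [← B3, ← B4, h11]
  rcases Nat.even_or_odd' i with ⟨j, rfl | rfl⟩
  · -- a chamber is fixed
    have e1 : (2 * j) % 2 = 0 := by omega
    have e3 : 2 * j / 2 = j := by omega
    simp only [e1, e3, if_true] at hfix
    -- we may assume `j < n`
    obtain ⟨j, hj, hfix⟩ : ∃ j, j < n ∧ k • c j = c j := by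
      rcases Nat.lt_or_ge j n with h1 | h1
      · exact ⟨j, h1, hfix⟩
      · have h2 : j = n := by omega
        subst h2
        refine ⟨0, by omega, ?_⟩
        rw [hkg]
        have h3 : k • c 0 = k • c j := by rw [hkg, hfix]
        exact (smul_left_cancel _ h3).symm
    obtain ⟨m, rfl⟩ : ∃ m, n = m + 1 := ⟨n - 1, by omega⟩
    have hin := gy_of_sq (c := fun i => (fun i => k ^ (i / (m + 1)) • c (i % (m + 1))) (j + i))
      (h := fun i => (fun i => k ^ (i / (m + 1)) • h (i % (m + 1))) (j + i)) (n := m)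
      (X := X) (kd := kd) (p := p)
      ⟨fun i _ => (hPS (j + i + 2)).l (j + i) (by omega),
        fun i _ => (hPS (j + i + 2)).r (j + i) (by omega),
        fun i _ => (hPS (j + i + 2)).c (j + i) (by omega),
        fun i _ => (hPS (j + i + 2)).h (j + i) (by omega)⟩
    have hd : (j + (m + 1)) / (m + 1) = 1 := by
      rw [Nat.add_div_right _ (by omega), Nat.div_eq_of_lt hj]
    have hmo : (j + (m + 1)) % (m + 1) = j := by
      rw [Nat.add_mod_right, Nat.mod_eq_of_lt hj]
    have hd0 : j / (m + 1) = 0 := Nat.div_eq_of_lt hj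
    have hm0 : j % (m + 1) = j := Nat.mod_eq_of_lt hj
    simp only [hd, hmo, hd0, hm0, pow_one, pow_zero, one_smul, Nat.add_zero, hfix] at hin
    have := hT.gir p _ _ _ _ hin ?_
    · omega
    · intro h9
      have h10 := hS.h
      -- the orbits of the first and of the last hyperedge
      have h11 := congrArg (orb N) h9
      have h12 : orb N (k ^ ((j + m) / (m + 1)) • h ((j + m) % (m + 1))) = orb N (h ((j + m) % (m + 1))) :=
        orb_smul N (pow_mem hk _) _
      rw [h12, b3 j (by omega), b3 _ (Nat.mod_lt _ (by omega))] at h11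
      rcases Nat.eq_zero_or_pos j with hj0 | hj0
      · subst hj0
        rw [Nat.zero_add, Nat.mod_eq_of_lt (show m < m + 1 by omega)] at h11
        apply hfe
        rw [← B3, ← B4, Nat.add_sub_cancel]
        exact h11
      · obtain ⟨l, rfl⟩ : ∃ l, j = l + 1 := ⟨j - 1, by omega⟩
        rw [show l + 1 + m = l + (m + 1) by omega, Nat.add_mod_right,
          Nat.mod_eq_of_lt (show l < m + 1 by omega)] at h11
        exact hS.h l (by omega) h11
  · -- a hyperedge is fixed
    have e2 : ¬ (2 * j + 1) % 2 = 0 := by omega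
    have e4 : (2 * j + 1) / 2 = j := by omega
    simp only [e2, e4, if_false] at hfix
    have hj : j < n := by omega
    obtain ⟨m, rfl⟩ : ∃ m, n = m + 2 := ⟨n - 2, by omega⟩
    have hin := gy_of_sq (c := fun i => (fun i => k ^ (i / (m + 2)) • c (i % (m + 2))) (j + 1 + i))
      (h := fun i => (fun i => k ^ (i / (m + 2)) • h (i % (m + 2))) (j + 1 + i)) (n := m)
      (X := X) (kd := kd) (p := p)
      ⟨fun i _ => (hPS (j + 1 + i + 2)).l (j + 1 + i) (by omega),
        fun i _ => (hPS (j + 1 + i + 2)).r (j + 1 + i) (by omega),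
        fun i _ => (hPS (j + 1 + i + 2)).c (j + 1 + i) (by omega),
        fun i _ => (hPS (j + 1 + i + 2)).h (j + 1 + i) (by omega)⟩
    have hd : (j + (m + 2)) / (m + 2) = 1 := by
      rw [Nat.add_div_right _ (by omega), Nat.div_eq_of_lt hj]
    have hmo : (j + (m + 2)) % (m + 2) = j := by
      rw [Nat.add_mod_right, Nat.mod_eq_of_lt hj]
    have hd0 : j / (m + 2) = 0 := Nat.div_eq_of_lt hj
    have hm0 : j % (m + 2) = j := Nat.mod_eq_of_lt hj
    have s1 : j + 1 + (m + 1) = j + (m + 2) := by omega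
    have s2 := hC1 j
    rw [hd0, hm0, pow_zero, one_smul] at s2
    simp only [s1, hd, hmo, pow_one, Nat.add_zero] at hin
    rw [s2] at hin
    have s3 := (hPS (j + (m + 2) + 1)).l (j + (m + 2)) (by omega)
    simp only [hd, hmo, pow_one, hfix] at s3
    have s4 := (hPS (j + 1 + m + 2)).h (j + 1 + m) (by omega)
    rw [show j + 1 + m + 1 = j + (m + 2) by omega] at s4
    simp only [hd, hmo, pow_one, hfix] at s4
    have s5 := (hPS (j + 2)).h j (by omega)
    simp only [hd0, hm0, pow_zero, one_smul] at s5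
    have hcl' := Gy.step _ _ _ _ _ _ _ hin s4 s3 (hs.r j hj) (by
      intro h9
      have h11 : orb N (k • c j) = orb N (c (j + 1)) := by rw [h9]
      rw [orb_smul N hk, b2 j (by omega), b2 (j + 1) (by omega)] at h11
      exact hS.c j hj h11)
    have := hT.gir p _ _ _ _ hcl' s5
    omega

/-- the quotient is a typed complex with labels -/
theorem tquo_tc2 {K : ℕ} (hK : ∀ p, kd p = 2 → 4 * μ (τ p) ≤ K) (hcl : CLK K X N) :
    TC2 (tquo hT ha N) (qkd hT ha N) (qτ ha N) μ where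
  kd_le i := by
    obtain ⟨x, rfl⟩ := orb_surj N i
    exact hT.kd_le x
  kd_ne := by
    rintro i j ⟨a, b, rfl, rfl, h⟩
    exact hT.kd_ne _ _ h
  kd_τ i j h := by
    obtain ⟨x, rfl⟩ := orb_surj N i
    obtain ⟨y, rfl⟩ := orb_surj N j
    exact hT.kd_τ x y h
  len _ _ _ := rfl
  fill g e p hg he hp h1 h2 := by
    obtain ⟨e, rfl⟩ := orb_surj N e
    obtain ⟨g, rfl, h3⟩ := edge_lift ((tquo hT ha N).symm _ _ h1)
    obtain ⟨p, rfl, h4⟩ := edge_lift h2
    exact ⟨g, e, p, rfl, rfl, rfl, hT.fill g e p hg he hp (X.symm _ _ h3) h4⟩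
  cell e p he hp h := by
    obtain ⟨e, rfl⟩ := orb_surj N e
    obtain ⟨p, rfl, h4⟩ := edge_lift h
    obtain ⟨g, hg, h5⟩ := hT.cell e p he hp h4
    exact ⟨orb N g, hg, g, e, rfl, rfl, h5⟩
  inj g x y hg h1 h2 h := by
    obtain ⟨g, rfl⟩ := orb_surj N g
    obtain ⟨x, rfl, h3⟩ := edge_lift h1
    obtain ⟨y, rfl, h4⟩ := edge_lift h2
    rw [hT.inj g x y hg h3 h4 h]
  two g p hg hp h := by
    obtain ⟨g, rfl⟩ := orb_surj N g
    obtain ⟨p, rfl, h3⟩ := edge_lift h
    obtain ⟨e, e', hne, he, he', h4, h5, h6⟩ := hT.two g p hg hp h3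
    refine ⟨orb N e, orb N e', ?_, he, he', ⟨g, e, p, rfl, rfl, rfl, h4⟩,
      ⟨g, e', p, rfl, rfl, rfl, h5⟩, ?_⟩
    · intro h7
      exact hne (uniq hT ha hg (X.edge _ _ _ h4) (X.edge _ _ _ h5) h7)
    · intro x hx
      obtain ⟨x, rfl, h7⟩ := tri_lift13 h3 hx
      rcases h6 x h7 with h8 | h8
      · exact Or.inl (by rw [h8])
      · exact Or.inr (by rw [h8])
  pts g e hg he h := by
    obtain ⟨g, rfl⟩ := orb_surj N g
    obtain ⟨e, rfl, h3⟩ := edge_lift h
    obtain ⟨p, q, hne, hp, hq, h4, h5⟩ := hT.pts g e hg he h3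
    refine ⟨orb N p, orb N q, ?_, hp, hq, ⟨g, e, p, rfl, rfl, rfl, h4⟩,
      ⟨g, e, q, rfl, rfl, rfl, h5⟩⟩
    intro h7
    exact hne (uniq hT ha hg (third h4) (third h5) h7)
  lg g e e' p q hg he he' hp hq hne h1 h2 h3 h4 := by
    obtain ⟨g, rfl⟩ := orb_surj N g
    obtain ⟨e1, p1, rfl, rfl, k1⟩ := tri_lift1 h1
    obtain ⟨e2, p2, rfl, hp2, k2⟩ := tri_lift1 h2
    obtain ⟨e3, q3, he3, rfl, k3⟩ := tri_lift1 h3
    obtain ⟨e4, q4, he4, hq4, k4⟩ := tri_lift1 h4
    have a1 := uniq hT ha hg (third k2) (third k1) hp2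
    have a2 := uniq hT ha hg (X.edge _ _ _ k3) (X.edge _ _ _ k1) he3
    have a3 := uniq hT ha hg (X.edge _ _ _ k4) (X.edge _ _ _ k2) he4
    have a4 := uniq hT ha hg (third k4) (third k3) hq4
    subst a1 a2 a3 a4
    rw [hT.lg g _ _ _ _ hg he he' hp hq (fun h => hne (by rw [h])) k1 k2 k3 k4]
  mu p hp := by
    obtain ⟨p, rfl⟩ := orb_surj N p
    exact hT.mu p hp
  k3 g e₁ e₂ e₃ p₁ p₂ p₃ h1 h2 h3 h4 h5 h6 n1 n2 n3 := by
    obtain ⟨g, rfl⟩ := orb_surj N g
    obtain ⟨hg, he1, hp1, h1⟩ := h1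
    obtain ⟨-, he2, -, h2⟩ := h2
    obtain ⟨-, -, hp2, h3⟩ := h3
    obtain ⟨-, he3, -, h4⟩ := h4
    obtain ⟨-, -, hp3, h5⟩ := h5
    obtain ⟨-, -, -, h6⟩ := h6
    obtain ⟨E1, P1, rfl, rfl, k1⟩ := tri_lift1 h1
    obtain ⟨E2, P1', rfl, hP1, k2⟩ := tri_lift1 h2
    obtain ⟨E2', P2, hE2, rfl, k3⟩ := tri_lift1 h3
    obtain ⟨E3, P2', rfl, hP2, k4⟩ := tri_lift1 h4
    obtain ⟨E3', P3, hE3, rfl, k5⟩ := tri_lift1 h5
    obtain ⟨E1', P3', hE1, hP3, k6⟩ := tri_lift1 h6
    have a1 := uniq hT ha hg (third k2) (third k1) hP1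
    have a2 := uniq hT ha hg (X.edge _ _ _ k3) (X.edge _ _ _ k2) hE2
    have a3 := uniq hT ha hg (third k4) (third k3) hP2
    have a4 := uniq hT ha hg (X.edge _ _ _ k5) (X.edge _ _ _ k4) hE3
    have a5 := uniq hT ha hg (third k6) (third k5) hP3
    have a6 := uniq hT ha hg (X.edge _ _ _ k6) (X.edge _ _ _ k1) hE1
    subst a1 a2 a3 a4 a5 a6
    exact hT.k3 g _ _ _ _ _ _ ⟨hg, he1, hp1, k1⟩ ⟨hg, he2, hp1, k2⟩ ⟨hg, he2, hp2, k3⟩
      ⟨hg, he3, hp2, k4⟩ ⟨hg, he3, hp3, k5⟩ ⟨hg, he1, hp3, k6⟩ (fun h => n1 (by rw [h]))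
      (fun h => n2 (by rw [h])) (fun h => n3 (by rw [h]))
  gir p n f e g h hfe := by
    obtain ⟨p, rfl⟩ := orb_surj N p
    exact quo_gir hK hcl h hfe

end Pool.Agent.H52.T3
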